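import Pool.Agent.CTG.Defs

/-! Row CPT. The number of solutions is locally constant near a transverse intersection.
Here the local statement `iso` is a hypothesis; see `Cpt.lean`. -/

namespace Pool.CTG.CpA

open Module Pool.CSC Pool.CTG Filter Topology

noncomputable section

variable {k n m : ℕ}

/-- `1` acts as the identity -/
lemma im_one (H : Submodule ℂ (V n)) : im (1 : E n) H = H := by
  rw [im]
  ext v
  simp

/-- the span of a frame -/
def sp (B : Fin k → V n) : Submodule ℂ (V n) := Submodule.span ℂ (Set.range B)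

lemma finrank_sp_le (B : Fin k → V n) : finrank ℂ (sp B) ≤ k := by
  have h := finrank_range_le_card (R := ℂ) B
  rw [Fintype.card_fin] at h
  exact h

lemma finrank_im_le (T : E n) (H : Submodule ℂ (V n)) : finrank ℂ (im T H) ≤ finrank ℂ H :=
  Submodule.finrank_map_le _ _

/-- the dimension of the intersection of the span of a frame with the image of a subspace is
upper semicontinuous -/
lemma usc (B : Fin k → V n) (G : Submodule ℂ (V n)) (d : ℕ) (hB : finrank ℂ (sp B) = k)
    (hd : finrank ℂ ↥(sp B ⊓ G) < d) :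
    ∀ᶠ p : (Fin k → V n) × E n in 𝓝 (B, 1), finrank ℂ ↥(sp p.1 ⊓ im p.2 G) < d := by
  classical
  obtain ⟨r, hr⟩ : ∃ r, finrank ℂ G = r := ⟨_, rfl⟩
  let f : Basis (Fin r) ℂ G := (Module.finBasisOfFinrankEq ℂ G hr)
  let w : (Fin k → V n) × E n → (Fin k ⊕ Fin r → V n) := fun p =>
    Sum.elim p.1 fun b => p.2 (f b : V n)
  have hw : Continuous w := by
    refine continuous_pi fun x => ?_
    rcases x with a | b
    · exact (continuous_apply a).comp continuous_fst
    · exact ((ContinuousLinearMap.apply ℂ (V n) (f b : V n)).continuous).comp continuous_snd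
  have hspan : ∀ p : (Fin k → V n) × E n,
      Submodule.span ℂ (Set.range (w p)) = sp p.1 ⊔ im p.2 G := by
    intro p
    have h1 : Set.range (w p) = Set.range p.1 ∪ Set.range fun b => p.2 (f b : V n) := by
      simp only [w, Set.Sum.elim_range]
    rw [h1, Submodule.span_union]
    congr 1
    have h2 : (Set.range fun b => p.2 (f b : V n)) =
        (p.2 : V n →ₗ[ℂ] V n) '' (G.subtype '' Set.range f) := by
      rw [← Set.range_comp, ← Set.range_comp]
      rfl
    rw [h2, Submodule.span_image, Submodule.span_image, f.span_eq, Submodule.map_top,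
      Submodule.range_subtype, im]
  obtain ⟨κ, a, hai, hsp, hli⟩ := exists_linearIndependent' ℂ (w (B, 1))
  have : Finite κ := Finite.of_injective a hai
  have := Fintype.ofFinite κ
  have hcard : Fintype.card κ = finrank ℂ ↥(sp B ⊔ G) := by
    have h1 := finrank_span_eq_card hli
    rw [← h1]
    have h2 := hspan (B, 1)
    rw [im_one] at h2
    rw [← h2, ← hsp]
  have hopen : ∀ᶠ p : (Fin k → V n) × E n in 𝓝 (B, 1), LinearIndependent ℂ (w p ∘ a) := by
    have hc : Continuous fun p : (Fin k → V n) × E n => (w p ∘ a : κ → V n) :=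
      continuous_pi fun x => (continuous_apply (a x)).comp hw
    exact hc.continuousAt.eventually (hli.eventually)
  filter_upwards [hopen] with p hp
  have h1 : Fintype.card κ ≤ finrank ℂ ↥(sp p.1 ⊔ im p.2 G) := by
    rw [← finrank_span_eq_card hp, ← hspan]
    refine Submodule.finrank_mono (Submodule.span_mono ?_)
    rintro _ ⟨x, rfl⟩
    exact ⟨a x, rfl⟩
  have h2 := Submodule.finrank_sup_add_finrank_inf_eq (sp B) G
  have h3 := Submodule.finrank_sup_add_finrank_inf_eq (sp p.1) (im p.2 G)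
  have h4 := finrank_sp_le p.1
  have h5 := finrank_im_le p.2 G
  omega

/-- distinct subspaces stay distinct -/
lemma distinct {H H' : Submodule ℂ (V n)} (h : ¬ H ≤ H') :
    ∀ᶠ p : E n × E n in 𝓝 (1, 1), im p.1 H ≠ im p.2 H' := by
  obtain ⟨x, hx, hx'⟩ := SetLike.not_le_iff_exists.1 h
  obtain ⟨f, hf, hfH⟩ := Submodule.exists_le_ker_of_notMem hx'
  let c : E n × E n → ℂ := fun p => f (Ring.inverse p.2 (p.1 x))
  have hinv : ContinuousAt (fun T : E n => Ring.inverse T) 1 := by
    have := NormedRing.inverse_continuousAt (1 : (E n)ˣ)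
    simpa using this
  have hc : ContinuousAt c (1, 1) := by
    have h1 : ContinuousAt (fun p : E n × E n => Ring.inverse p.2) (1, 1) :=
      ContinuousAt.comp (f := fun p : E n × E n => p.2) (g := fun T : E n => Ring.inverse T)
        hinv continuousAt_snd
    have h2 : ContinuousAt (fun p : E n × E n => p.1 x) (1, 1) :=
      ((ContinuousLinearMap.apply ℂ (V n) x).continuous.comp continuous_fst).continuousAt
    have h3 := h1.clm_apply h2
    exact (LinearMap.continuous_of_finiteDimensional f).continuousAt.comp h3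
  have h1 : c (1, 1) ≠ 0 := by
    simp only [c, Ring.inverse_one]
    exact hf
  have hu : ∀ᶠ p : E n × E n in 𝓝 (1, 1), IsUnit p.2 := by
    have h2 : ∀ᶠ T : E n in 𝓝 1, IsUnit T := (Units.isOpen (R := E n)).mem_nhds isUnit_one
    exact continuousAt_snd.eventually h2
  filter_upwards [hc.eventually_ne h1, hu] with p hp hpu heq
  have h2 : p.1 x ∈ im p.2 H' := by
    rw [← heq]
    exact ⟨x, hx, rfl⟩
  obtain ⟨y, hy, hyx⟩ := h2
  apply hp
  simp only [c]
  have h3 : p.2 y = p.1 x := hyx
  rw [← h3]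
  have h4 : Ring.inverse p.2 (p.2 y) = (Ring.inverse p.2 * p.2) y := rfl
  rw [h4, Ring.inverse_mul_cancel _ hpu]
  exact hfH hy

/-- the local statement -/
def Loc (k n m : ℕ) (lam : Fin m → Fin k → ℕ) (F : Fin m → ℕ → Submodule ℂ (V n))
    (H : Submodule ℂ (V n)) : Prop :=
  ∃ Ts : (Fin m → E n) → E n, Tendsto Ts (𝓝 1) (𝓝 1) ∧
      (∀ᶠ g in 𝓝 (1 : Fin m → E n), im (Ts g) H ∈ Inter k n m lam F g) ∧
      (∀ᶠ p in 𝓝 ((1, 1) : (Fin m → E n) × E n), im p.2 H ∈ Inter k n m lam F p.1 →
        im p.2 H = im (Ts p.1) H)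

lemma inter_one (lam : Fin m → Fin k → ℕ) (F : Fin m → ℕ → Submodule ℂ (V n)) :
    Inter k n m lam F 1 = ⋂ l, schub k n (lam l) (F l) := by
  rw [Inter]
  simp only [Pi.one_apply, im_one]

/-- the standard continuous linear equivalence -/
abbrev eu (n : ℕ) : EuclideanSpace ℂ (Fin n) ≃L[ℂ] V n := EuclideanSpace.equiv (Fin n) ℂ

/-- the local claim: near a frame -/
lemma claim_sol {lam : Fin m → Fin k → ℕ} {F : Fin m → ℕ → Submodule ℂ (V n)}
    {B : Fin k → EuclideanSpace ℂ (Fin n)} (hB : Orthonormal ℂ B)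
    {Ts : (Fin m → E n) → E n}
    (hT : ∀ᶠ p in 𝓝 ((1, 1) : (Fin m → E n) × E n),
      im p.2 (sp fun a => eu n (B a)) ∈ Inter k n m lam F p.1 →
        im p.2 (sp fun a => eu n (B a)) = im (Ts p.1) (sp fun a => eu n (B a))) :
    ∀ᶠ p in 𝓝 ((1, B) : (Fin m → E n) × (Fin k → EuclideanSpace ℂ (Fin n))),
      sp (fun a => eu n (p.2 a)) ∈ Inter k n m lam F p.1 →
        sp (fun a => eu n (p.2 a)) = im (Ts p.1) (sp fun a => eu n (B a)) := by
  classical
  let c : Fin k → (V n →L[ℂ] ℂ) := fun a =>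
    (innerSL ℂ (B a)).comp ((eu n).symm : V n →L[ℂ] EuclideanSpace ℂ (Fin n))
  let T : (Fin k → EuclideanSpace ℂ (Fin n)) → E n := fun B' =>
    1 + ∑ a, (c a).smulRight (eu n (B' a) - eu n (B a))
  have hTc : Continuous T := by
    refine continuous_const.add (continuous_finsetSum _ fun a _ => ?_)
    have h1 : Continuous fun v : V n => (c a).smulRight v := by
      exact (ContinuousLinearMap.smulRightL ℂ (V n) (V n) (c a)).continuous
    exact h1.comp (((eu n).continuous.comp (continuous_apply a)).sub continuous_const)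
  have hT1 : T B = 1 := by
    simp only [T, sub_self]
    simp
  have hTB : ∀ B' b, T B' (eu n (B b)) = eu n (B' b) := by
    intro B' b
    simp only [T, add_apply, one_apply_eq_self,
      sum_apply, ContinuousLinearMap.smulRight_apply]
    have h1 : ∀ a, c a (eu n (B b)) = if a = b then 1 else 0 := by
      intro a
      simp only [c, ContinuousLinearMap.comp_apply, innerSL_apply_apply,
        ContinuousLinearEquiv.coe_coe, ContinuousLinearEquiv.symm_apply_apply]
      exact orthonormal_iff_ite.1 hB a b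
    simp only [h1, ite_smul, one_smul, zero_smul, Finset.sum_ite_eq', Finset.mem_univ, if_true]
    abel
  have him : ∀ B' : Fin k → EuclideanSpace ℂ (Fin n),
      im (T B') (sp fun a => eu n (B a)) = sp fun a => eu n (B' a) := by
    intro B'
    rw [im, sp, sp, Submodule.map_span, ← Set.range_comp]
    congr 2
    funext b
    exact hTB B' b
  have hcont : Tendsto (fun p : (Fin m → E n) × (Fin k → EuclideanSpace ℂ (Fin n)) =>
      (p.1, T p.2)) (𝓝 (1, B)) (𝓝 (1, 1)) := by
    have h1 : Continuous fun p : (Fin m → E n) × (Fin k → EuclideanSpace ℂ (Fin n)) =>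
      (p.1, T p.2) := continuous_fst.prodMk (hTc.comp continuous_snd)
    have h2 := h1.tendsto (1, B)
    rwa [hT1] at h2
  filter_upwards [hcont.eventually hT] with p hp hmem
  rw [← him p.2] at hmem ⊢
  exact hp hmem

lemma claim_non {lam : Fin m → Fin k → ℕ} {F : Fin m → ℕ → Submodule ℂ (V n)}
    {B : Fin k → EuclideanSpace ℂ (Fin n)} (hB : Orthonormal ℂ B)
    (hH : sp (fun a => eu n (B a)) ∉ Inter k n m lam F 1) :
    ∀ᶠ p in 𝓝 ((1, B) : (Fin m → E n) × (Fin k → EuclideanSpace ℂ (Fin n))),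
      sp (fun a => eu n (p.2 a)) ∉ Inter k n m lam F p.1 := by
  have hli : LinearIndependent ℂ fun a => eu n (B a) := by
    have h1 := hB.linearIndependent
    exact h1.map' ((eu n : EuclideanSpace ℂ (Fin n) →L[ℂ] V n) :
      EuclideanSpace ℂ (Fin n) →ₗ[ℂ] V n) (LinearMap.ker_eq_bot.2 (eu n).injective)
  have hfr : finrank ℂ (sp fun a => eu n (B a)) = k := by
    rw [sp, finrank_span_eq_card hli, Fintype.card_fin]
  rw [inter_one] at hH
  simp only [Set.mem_iInter, not_forall] at hH
  obtain ⟨l, hl⟩ := hH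
  have h1 : ∃ i : Fin k, finrank ℂ ↥(sp (fun a => eu n (B a)) ⊓ F l (sidx k n (lam l) i)) <
      (i : ℕ) + 1 := by
    by_contra hcon
    push Not at hcon
    exact hl ⟨hfr, hcon⟩
  obtain ⟨i, hi⟩ := h1
  have h2 := usc (fun a => eu n (B a)) (F l (sidx k n (lam l) i)) _ hfr hi
  have hcont : Tendsto (fun p : (Fin m → E n) × (Fin k → EuclideanSpace ℂ (Fin n)) =>
      ((fun a => eu n (p.2 a)), p.1 l)) (𝓝 (1, B)) (𝓝 ((fun a => eu n (B a)), 1)) := by
    have h3 : Continuous fun p : (Fin m → E n) × (Fin k → EuclideanSpace ℂ (Fin n)) =>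
      ((fun a => eu n (p.2 a)), p.1 l) := by
      refine Continuous.prodMk ?_ ?_
      · exact continuous_pi fun a => (eu n).continuous.comp
          ((continuous_apply a).comp continuous_snd)
      · exact (continuous_apply l).comp continuous_fst
    exact h3.tendsto (1, B)
  filter_upwards [hcont.eventually h2] with p hp hmem
  simp only [Inter, Set.mem_iInter] at hmem
  have h3 := (hmem l).2 i
  exact absurd hp (not_lt.2 h3)

/-- orthonormal frames -/
def K (k n : ℕ) : Set (Fin k → EuclideanSpace ℂ (Fin n)) := {B | Orthonormal ℂ B}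

lemma isCompact_K (k n : ℕ) : IsCompact (K k n) := by
  classical
  have : ProperSpace (EuclideanSpace ℂ (Fin n)) := FiniteDimensional.proper_rclike ℂ _
  refine Metric.isCompact_of_isClosed_isBounded ?_ ?_
  · have h1 : K k n = ⋂ (a : Fin k) (b : Fin k), {B | inner ℂ (B a) (B b) =
        (if a = b then (1 : ℂ) else 0)} := by
      ext B
      simp only [K, Set.mem_ofPred_eq, Set.mem_iInter]
      exact orthonormal_iff_ite
    rw [h1]
    refine isClosed_iInter fun a => isClosed_iInter fun b => ?_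
    exact isClosed_eq ((continuous_apply a).inner (continuous_apply b)) continuous_const
  · refine (Metric.isBounded_closedBall (x := (0 : Fin k → EuclideanSpace ℂ (Fin n)))
      (r := 1)).subset ?_
    intro B hB
    rw [mem_closedBall_zero_iff, pi_norm_le_iff_of_nonneg zero_le_one]
    intro a
    exact (hB.1 a).le

lemma exists_frame {H : Submodule ℂ (V n)} (hH : finrank ℂ H = k) :
    ∃ B ∈ K k n, sp (fun a => eu n (B a)) = H := by
  let L : V n ≃ₗ[ℂ] EuclideanSpace ℂ (Fin n) := (eu n).symm.toLinearEquiv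
  let H' : Submodule ℂ (EuclideanSpace ℂ (Fin n)) := H.map (L : V n →ₗ[ℂ] EuclideanSpace ℂ (Fin n))
  have hH' : finrank ℂ H' = k := by
    rw [← hH]
    exact LinearEquiv.finrank_map_eq L H
  let b : OrthonormalBasis (Fin k) ℂ H' :=
    (stdOrthonormalBasis ℂ H').reindex (finCongr hH')
  refine ⟨fun a => (b a : EuclideanSpace ℂ (Fin n)), ?_, ?_⟩
  · exact b.orthonormal.comp_linearIsometry H'.subtypeₗᵢ
  · have h1 : Set.range (fun a => eu n (b a : EuclideanSpace ℂ (Fin n))) =
        ((eu n).toLinearEquiv : EuclideanSpace ℂ (Fin n) →ₗ[ℂ] V n) ''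
          (H'.subtype '' Set.range b) := by
      rw [← Set.range_comp, ← Set.range_comp]
      rfl
    rw [sp, h1, Submodule.span_image, Submodule.span_image]
    have h2 : Submodule.span ℂ (Set.range b) = ⊤ := by
      have := b.toBasis.span_eq
      rwa [OrthonormalBasis.coe_toBasis] at this
    rw [h2, Submodule.map_top, Submodule.range_subtype]
    ext v
    constructor
    · rintro ⟨y, ⟨x, hx, rfl⟩, rfl⟩
      have h3 : eu n ((eu n).symm x) = x := (eu n).apply_symm_apply x
      change eu n ((eu n).symm x) ∈ H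
      rw [h3]
      exact hx
    · intro hv
      exact ⟨L v, ⟨v, hv, rfl⟩, (eu n).apply_symm_apply v⟩

theorem loc_const_of {lam : Fin m → Fin k → ℕ} {F : Fin m → ℕ → Submodule ℂ (V n)}
    (hm : ∀ g, ∀ H ∈ Inter k n m lam F g, finrank ℂ H = k)
    (hloc : ∀ H ∈ Inter k n m lam F 1, Loc k n m lam F H) :
    ∃ d : ℕ, (Inter k n m lam F 1).encard = d ∧
      ∀ᶠ g in 𝓝 (1 : Fin m → E n), (Inter k n m lam F g).encard = d := by
  classical
  choose! Ts hT1 hT2 hT3 using hloc
  -- the local claim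
  have key : ∀ B ∈ K k n, ∃ S0 : Set (Submodule ℂ (V n)), S0.Finite ∧
      S0 ⊆ Inter k n m lam F 1 ∧
      ∀ᶠ p in 𝓝 ((1, B) : (Fin m → E n) × (Fin k → EuclideanSpace ℂ (Fin n))),
        sp (fun a => eu n (p.2 a)) ∈ Inter k n m lam F p.1 →
          ∃ H ∈ S0, sp (fun a => eu n (p.2 a)) = im (Ts H p.1) H := by
    intro B hB
    by_cases h : sp (fun a => eu n (B a)) ∈ Inter k n m lam F 1
    · refine ⟨{sp fun a => eu n (B a)}, Set.finite_singleton _, Set.singleton_subset_iff.2 h, ?_⟩
      filter_upwards [claim_sol hB (hT3 _ h)] with p hp hmem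
      exact ⟨_, rfl, hp hmem⟩
    · refine ⟨∅, Set.finite_empty, Set.empty_subset _, ?_⟩
      filter_upwards [claim_non hB h] with p hp hmem
      exact absurd hmem hp
  -- compactness
  have hcpt : ∃ S0 : Set (Submodule ℂ (V n)), S0.Finite ∧ S0 ⊆ Inter k n m lam F 1 ∧
      ∀ᶠ g in 𝓝 (1 : Fin m → E n), ∀ B ∈ K k n,
        sp (fun a => eu n (B a)) ∈ Inter k n m lam F g →
          ∃ H ∈ S0, sp (fun a => eu n (B a)) = im (Ts H g) H := by
    refine (isCompact_K k n).induction_on (p := fun s => ∃ S0 : Set (Submodule ℂ (V n)),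
      S0.Finite ∧ S0 ⊆ Inter k n m lam F 1 ∧ ∀ᶠ g in 𝓝 (1 : Fin m → E n), ∀ B ∈ s,
        sp (fun a => eu n (B a)) ∈ Inter k n m lam F g →
          ∃ H ∈ S0, sp (fun a => eu n (B a)) = im (Ts H g) H) ?_ ?_ ?_ ?_
    · exact ⟨∅, Set.finite_empty, Set.empty_subset _, Eventually.of_forall fun g B hB => hB.elim⟩
    · rintro s t hst ⟨S0, h1, h2, h3⟩
      refine ⟨S0, h1, h2, ?_⟩
      filter_upwards [h3] with g hg B hB
      exact hg B (hst hB)
    · rintro s t ⟨S0, h1, h2, h3⟩ ⟨S1, h4, h5, h6⟩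
      refine ⟨S0 ∪ S1, h1.union h4, Set.union_subset h2 h5, ?_⟩
      filter_upwards [h3, h6] with g hg hg' B hB hmem
      rcases hB with hB | hB
      · obtain ⟨H, hH, h⟩ := hg B hB hmem
        exact ⟨H, Or.inl hH, h⟩
      · obtain ⟨H, hH, h⟩ := hg' B hB hmem
        exact ⟨H, Or.inr hH, h⟩
    · intro B hB
      obtain ⟨S0, h1, h2, h3⟩ := key B hB
      rw [nhds_prod_eq] at h3
      obtain ⟨pa, hpa, pb, hpb, h4⟩ := Filter.eventually_prod_iff.1 h3
      refine ⟨{B' | pb B'}, mem_nhdsWithin_of_mem_nhds hpb, S0, h1, h2, ?_⟩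
      filter_upwards [hpa] with g hg B' hB'
      exact h4 hg hB'
  obtain ⟨S0, hfin, hsub, hcov⟩ := hcpt
  have hTs1 : ∀ H ∈ Inter k n m lam F 1, Ts H 1 = 1 := by
    intro H hH
    have h1 := hT1 H hH
    by_contra hne
    have h2 : ∀ᶠ g in 𝓝 (1 : Fin m → E n), Ts H g ∈ ({Ts H 1}ᶜ : Set (E n)) :=
      h1.eventually (isOpen_compl_singleton.mem_nhds (by
        rw [Set.mem_compl_iff, Set.mem_singleton_iff]
        exact fun h => hne h.symm))
    exact h2.self_of_nhds rfl
  -- at `1`
  have hS : Inter k n m lam F 1 = S0 := by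
    refine Set.Subset.antisymm ?_ hsub
    intro H hH
    obtain ⟨B, hB, hBH⟩ := exists_frame (hm 1 H hH)
    have h1 := hcov.self_of_nhds B hB
    rw [hBH] at h1
    obtain ⟨H', hH', h2⟩ := h1 hH
    rw [hTs1 H' (hsub hH'), im_one] at h2
    rwa [h2]
  refine ⟨S0.ncard, ?_, ?_⟩
  · rw [hS, hfin.cast_ncard_eq]
  · have h1 : ∀ᶠ g in 𝓝 (1 : Fin m → E n), ∀ H ∈ S0, im (Ts H g) H ∈ Inter k n m lam F g :=
      (Set.Finite.eventually_all hfin).2 fun H hH => hT2 H (hsub hH)
    have h2 : ∀ᶠ g in 𝓝 (1 : Fin m → E n), ∀ H ∈ S0, ∀ H' ∈ S0, H ≠ H' →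
        im (Ts H g) H ≠ im (Ts H' g) H' := by
      refine (Set.Finite.eventually_all hfin).2 fun H hH => ?_
      refine (Set.Finite.eventually_all hfin).2 fun H' hH' => ?_
      by_cases h : H = H'
      · exact Eventually.of_forall fun g hne => absurd h hne
      · have h3 : ¬ H ≤ H' := by
          intro hle
          apply h
          exact Submodule.eq_of_le_of_finrank_eq hle
            ((hm 1 H (hsub hH)).trans (hm 1 H' (hsub hH')).symm)
        have h4 : Tendsto (fun g => (Ts H g, Ts H' g)) (𝓝 (1 : Fin m → E n)) (𝓝 (1, 1)) :=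
          (hT1 H (hsub hH)).prodMk_nhds (hT1 H' (hsub hH'))
        filter_upwards [h4.eventually (distinct h3)] with g hg _
        exact hg
    filter_upwards [h1, h2, hcov] with g hg1 hg2 hg3
    have h3 : Inter k n m lam F g = (fun H => im (Ts H g) H) '' S0 := by
      ext H
      constructor
      · intro hH
        obtain ⟨B, hB, hBH⟩ := exists_frame (hm g H hH)
        have h4 := hg3 B hB
        rw [hBH] at h4
        obtain ⟨H', hH', h5⟩ := h4 hH
        exact ⟨H', hH', h5.symm⟩
      · rintro ⟨H', hH', rfl⟩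
        exact hg1 H' hH'
    rw [h3, Set.InjOn.encard_image, hfin.cast_ncard_eq]
    intro H hH H' hH' heq
    by_contra hne
    exact hg2 H hH H' hH' hne heq

/-- row CPT, with `iso` as a hypothesis -/
theorem loc_const_of' {lam : Fin m → Fin k → ℕ} {F : Fin m → ℕ → Submodule ℂ (V n)}
    (htr : ∀ H ∈ ⋂ l, schub k n (lam l) (F l), ∀ φ : ↥H →ₗ[ℂ] (Fin n → ℂ) ⧸ H,
      (∀ l, TangentTo k n (lam l) (F l) H φ) → φ = 0)
    (hiso : ∀ H ∈ ⋂ l, schub k n (lam l) (F l), (∀ φ : ↥H →ₗ[ℂ] (Fin n → ℂ) ⧸ H,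
      (∀ l, TangentTo k n (lam l) (F l) H φ) → φ = 0) → Loc k n m lam F H) :
    ∃ d : ℕ, (⋂ l, schub k n (lam l) (F l)).encard = d ∧
      ∀ᶠ g in 𝓝 (1 : Fin m → E n), (Inter k n m lam F g).encard = d := by
  classical
  rcases Nat.eq_zero_or_pos m with rfl | hm
  · have h1 : ∀ g : Fin 0 → E n, Inter k n 0 lam F g = Set.univ := by
      intro g
      simp [Inter]
    have h2 : (⋂ l, schub k n (lam l) (F l)) = Set.univ := by simp
    have h3 : ∀ H : Submodule ℂ (V n), H = ⊥ ∨ H = ⊤ := by
      intro H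
      by_contra hcon
      push Not at hcon
      obtain ⟨x, hx, hx0⟩ := (Submodule.ne_bot_iff _).1 hcon.1
      obtain ⟨y, -, hy⟩ := SetLike.exists_of_lt (lt_top_iff_ne_top.2 hcon.2)
      obtain ⟨f, hf, -⟩ := Submodule.exists_le_ker_of_notMem
        (show x ∉ (⊥ : Submodule ℂ (V n)) from fun h => hx0 ((Submodule.mem_bot ℂ).1 h))
      have h4 := htr H (by rw [h2]; exact Set.mem_univ _)
        ((f ∘ₗ H.subtype).smulRight (H.mkQ y)) (fun l => l.elim0)
      have h5 := LinearMap.congr_fun h4 ⟨x, hx⟩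
      simp only [LinearMap.smulRight_apply, LinearMap.comp_apply, Submodule.subtype_apply,
        LinearMap.zero_apply, smul_eq_zero] at h5
      rcases h5 with h5 | h5
      · exact hf h5
      · exact hy ((Submodule.Quotient.mk_eq_zero H).1 h5)
    have hfin : (Set.univ : Set (Submodule ℂ (V n))).Finite :=
      (Set.toFinite {⊥, ⊤}).subset fun H _ => h3 H
    refine ⟨(Set.univ : Set (Submodule ℂ (V n))).ncard, ?_, Eventually.of_forall fun g => ?_⟩
    · rw [h2, hfin.cast_ncard_eq]
    · rw [h1, hfin.cast_ncard_eq]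
  · have h1 : ∀ g, ∀ H ∈ Inter k n m lam F g, finrank ℂ H = k := by
      intro g H hH
      simp only [Inter, Set.mem_iInter] at hH
      exact (hH ⟨0, hm⟩).1
    have h2 := loc_const_of h1 (fun H hH => by
      rw [inter_one] at hH
      exact hiso H hH (htr H hH))
    rwa [inter_one] at h2

end

end Pool.CTG.CpA
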