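import Pool.Agent.CTG.Iso
import Pool.Agent.CTG.CptA

/-! Row CPT. The number of solutions is locally constant near a transverse intersection. -/

namespace Pool.CTG

open Module Pool.CSC Filter Topology

theorem loc_const {k n m : ℕ} (hkn : k ≤ n) {lam : Fin m → Fin k → ℕ}
    (hlam : IsProblem k n m lam) {F : Fin m → ℕ → Submodule ℂ (V n)} (hF : ∀ l, IsFlag n (F l))
    (htr : ∀ H ∈ ⋂ l, schub k n (lam l) (F l), ∀ φ : ↥H →ₗ[ℂ] (Fin n → ℂ) ⧸ H,
      (∀ l, TangentTo k n (lam l) (F l) H φ) → φ = 0) :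
    ∃ d : ℕ, (⋂ l, schub k n (lam l) (F l)).encard = d ∧
      ∀ᶠ g in 𝓝 (1 : Fin m → E n), (Inter k n m lam F g).encard = d :=
  CpA.loc_const_of' htr fun _ hH h => iso hkn hlam hF hH h

end Pool.CTG
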