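import Pool.Agent.Helper53.CSC.Gener

/-! The number of points of a transverse intersection of Schubert varieties is the number for
general flags: notation. -/

namespace Pool.CTG

open Module Pool.CSC

/-- vectors -/
abbrev V (n : ℕ) := Fin n → ℂ

/-- endomorphisms, a Banach algebra -/
abbrev E (n : ℕ) := V n →L[ℂ] V n

/-- the image of a subspace -/
def im {n : ℕ} (T : E n) (H : Submodule ℂ (V n)) : Submodule ℂ (V n) :=
  H.map (T : V n →ₗ[ℂ] V n)

/-- the intersection of the Schubert varieties for the flags `g l (F l)` -/
def Inter (k n m : ℕ) (lam : Fin m → Fin k → ℕ) (F : Fin m → ℕ → Submodule ℂ (V n))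
    (g : Fin m → E n) : Set (Submodule ℂ (V n)) :=
  ⋂ l, schub k n (lam l) (fun j => im (g l) (F l j))

end Pool.CTG
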