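import Pool.Agent.CTG.Defs

/-! Row FORM. `there are at least d solutions` is an existential statement over polynomial
equations. -/

namespace Pool.CTG

open Module Pool.CSC

/-! polynomial functions and polynomial conditions -/

/-- polynomial functions -/
def PF {σ : Type} (f : (σ → ℂ) → ℂ) : Prop := ∃ p : MvPolynomial σ ℂ, ∀ x, f x = MvPolynomial.eval x p

lemma PF.coord {σ : Type} (i : σ) : PF (fun x : σ → ℂ => x i) := ⟨MvPolynomial.X i, by simp⟩

lemma PF.const {σ : Type} (c : ℂ) : PF (fun _ : σ → ℂ => c) := ⟨MvPolynomial.C c, by simp⟩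

lemma PF.mul {σ : Type} {f g : (σ → ℂ) → ℂ} (hf : PF f) (hg : PF g) : PF (fun x => f x * g x) := by
  obtain ⟨p, hp⟩ := hf
  obtain ⟨q, hq⟩ := hg
  exact ⟨p * q, fun x => by rw [map_mul, ← hp, ← hq]⟩

lemma PF.sum {σ J : Type} (s : Finset J) {f : J → (σ → ℂ) → ℂ} (hf : ∀ j, PF (f j)) :
    PF (fun x => ∑ j ∈ s, f j x) := by
  choose p hp using hf
  exact ⟨∑ j ∈ s, p j, fun x => by
    rw [map_sum]
    exact Finset.sum_congr rfl fun j _ => hp j x⟩

lemma PF.ite {σ : Type} (c : Prop) [Decidable c] {f g : (σ → ℂ) → ℂ} (hf : PF f) (hg : PF g) :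
    PF (fun x => if c then f x else g x) := by
  by_cases h : c
  · simpa only [if_pos h] using hf
  · simpa only [if_neg h] using hg

/-- conditions given by polynomial equations -/
def AL {σ : Type} (R : (σ → ℂ) → Prop) : Prop :=
  ∃ S : Set (MvPolynomial σ ℂ), ∀ x, R x ↔ ∀ p ∈ S, MvPolynomial.eval x p = 0

lemma AL.eq {σ : Type} {f g : (σ → ℂ) → ℂ} (hf : PF f) (hg : PF g) : AL (fun x => f x = g x) := by
  obtain ⟨p, hp⟩ := hf
  obtain ⟨q, hq⟩ := hg
  refine ⟨{p - q}, fun x => ?_⟩
  show f x = g x ↔ _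
  rw [hp, hq]
  simp [sub_eq_zero]

lemma AL.all {σ : Type} {J : Sort*} {R : J → (σ → ℂ) → Prop} (h : ∀ j, AL (R j)) :
    AL (fun x => ∀ j, R j x) := by
  choose S hS using h
  refine ⟨⋃ j, S j, fun x => ?_⟩
  constructor
  · intro hR p hp
    obtain ⟨j, hj⟩ := Set.mem_iUnion.1 hp
    exact (hS j x).1 (hR j) p hj
  · intro hR j
    exact (hS j x).2 fun p hp => hR p (Set.mem_iUnion.2 ⟨j, hp⟩)

lemma AL.and {σ : Type} {R R' : (σ → ℂ) → Prop} (h : AL R) (h' : AL R') :
    AL (fun x => R x ∧ R' x) := by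
  obtain ⟨S, hS⟩ := h
  obtain ⟨S', hS'⟩ := h'
  refine ⟨S ∪ S', fun x => ?_⟩
  show R x ∧ R' x ↔ _
  rw [hS, hS']
  constructor
  · rintro ⟨h1, h2⟩ p (hp | hp)
    · exact h1 p hp
    · exact h2 p hp
  · intro h
    exact ⟨fun p hp => h p (Or.inl hp), fun p hp => h p (Or.inr hp)⟩

/-! linear algebra -/

lemma li_iff {n : ℕ} {ρ : Type} [Fintype ρ] [DecidableEq ρ] (v : ρ → Fin n → ℂ) :
    LinearIndependent ℂ v ↔
      ∃ v' : ρ → Fin n → ℂ, ∀ r r', ∑ q, v r q * v' r' q = if r = r' then 1 else 0 := by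
  constructor
  · intro h
    have hinj : LinearMap.ker (Fintype.linearCombination ℂ v) = ⊥ :=
      LinearMap.ker_eq_bot.2 h.fintypeLinearCombination_injective
    obtain ⟨g, hg⟩ := LinearMap.exists_leftInverse_of_injective _ hinj
    refine ⟨fun r' q => g (Pi.single q 1) r', fun r r' => ?_⟩
    have h1 : g (v r) r' = if r = r' then 1 else 0 := by
      have h2 := LinearMap.congr_fun hg (Pi.single r 1)
      rw [LinearMap.comp_apply, Fintype.linearCombination_apply_single, one_smul,
        LinearMap.id_apply] at h2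
      rw [h2, Pi.single_apply]
      simp only [eq_comm]
    rw [← h1]
    have h3 : v r = ∑ q, v r q • (Pi.single q 1 : Fin n → ℂ) := by
      funext q
      simp [Finset.sum_apply, Pi.single_apply]
    conv_rhs => rw [h3]
    rw [map_sum, Finset.sum_apply]
    refine Finset.sum_congr rfl fun q _ => ?_
    rw [map_smul, Pi.smul_apply, smul_eq_mul]
  · rintro ⟨v', hv'⟩
    rw [Fintype.linearIndependent_iff]
    intro c hc r'
    have h1 : ∑ r, c r * ∑ q, v r q * v' r' q = 0 := by
      have h2 : ∀ q, ∑ r, c r * v r q = 0 := by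
        intro q
        have := congrFun hc q
        simpa [Finset.sum_apply] using this
      calc ∑ r, c r * ∑ q, v r q * v' r' q = ∑ q, (∑ r, c r * v r q) * v' r' q := by
            simp only [Finset.mul_sum, Finset.sum_mul]
            rw [Finset.sum_comm]
            exact Finset.sum_congr rfl fun q _ => Finset.sum_congr rfl fun r _ => by ring
        _ = 0 := by simp [h2]
    simp only [hv'] at h1
    simpa using h1

lemma le_encard_iff {α : Type*} (T : Set α) (d : ℕ) :
    (d : ℕ∞) ≤ T.encard ↔ ∃ f : Fin d → α, Function.Injective f ∧ ∀ s, f s ∈ T := by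
  constructor
  · intro h
    obtain ⟨t, ht, htd⟩ := Set.exists_subset_encard_eq h
    have hfin : t.Finite := Set.finite_of_encard_eq_coe htd
    have hcard : Nat.card t = d := by
      have h1 := hfin.encard_eq_coe_toFinset_card
      rw [htd] at h1
      have h2 : d = hfin.toFinset.card := by exact_mod_cast h1
      rw [h2, ← Set.ncard_eq_toFinset_card t hfin]
      rfl
    have : Finite t := hfin
    let e : Fin d ≃ t := (Finite.equivFinOfCardEq hcard).symm
    exact ⟨fun s => e s, fun a b h => e.injective (Subtype.ext h), fun s => ht (e s).2⟩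
  · rintro ⟨f, hf, hT⟩
    have h1 : (Set.range f).encard = d := by
      rw [← Set.image_univ, hf.encard_image]
      simp
    rw [← h1]
    exact Set.encard_le_encard (by rintro _ ⟨s, rfl⟩; exact hT s)

lemma mem_flagOf {n : ℕ} (A : Matrix (Fin n) (Fin n) ℂ) (j : ℕ) (z : Fin n → ℂ) :
    z ∈ flagOf n A j ↔ ∃ w : Fin n → ℂ, ∀ q, z q = ∑ p : Fin n, (if (p : ℕ) < j then w p else 0) * A p q := by
  constructor
  · intro hz
    rw [flagOf] at hz
    induction hz using Submodule.span_induction with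
    | mem x hx =>
      obtain ⟨i, hi, rfl⟩ := hx
      refine ⟨Pi.single i 1, fun q => ?_⟩
      rw [Finset.sum_eq_single i]
      · simp [hi]
      · intro p _ hp
        simp [Pi.single_eq_of_ne hp]
      · simp
    | zero => exact ⟨0, fun q => by simp⟩
    | add x y _ _ hx hy =>
      obtain ⟨w, hw⟩ := hx
      obtain ⟨w', hw'⟩ := hy
      refine ⟨w + w', fun q => ?_⟩
      rw [Pi.add_apply, hw, hw', ← Finset.sum_add_distrib]
      refine Finset.sum_congr rfl fun p _ => ?_
      split_ifs <;> simp [add_mul]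
    | smul a x _ hx =>
      obtain ⟨w, hw⟩ := hx
      refine ⟨a • w, fun q => ?_⟩
      rw [Pi.smul_apply, hw, smul_eq_mul, Finset.mul_sum]
      refine Finset.sum_congr rfl fun p _ => ?_
      split_ifs <;> simp [mul_assoc]
  · rintro ⟨w, hw⟩
    have h1 : z = ∑ p : Fin n, (if (p : ℕ) < j then w p else 0) • A p := by
      funext q
      rw [hw, Finset.sum_apply]
      rfl
    rw [h1]
    refine Submodule.sum_mem _ fun p _ => ?_
    split_ifs with hp
    · exact Submodule.smul_mem _ _ (Submodule.subset_span ⟨p, hp, rfl⟩)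
    · rw [zero_smul]
      exact Submodule.zero_mem _

lemma mem_range_iff {n k : ℕ} (B : Fin k → Fin n → ℂ) (z : Fin n → ℂ) :
    z ∈ Submodule.span ℂ (Set.range B) ↔ ∃ u : Fin k → ℂ, ∀ q, z q = ∑ j, u j * B j q := by
  rw [Submodule.mem_span_range_iff_exists_fun]
  constructor
  · rintro ⟨u, hu⟩
    refine ⟨u, fun q => ?_⟩
    rw [← hu, Finset.sum_apply]
    rfl
  · rintro ⟨u, hu⟩
    refine ⟨u, ?_⟩
    funext q
    rw [hu, Finset.sum_apply]
    rfl

/-- vectors outside a subspace -/
lemma notMem_iff {n k : ℕ} (B : Fin k → Fin n → ℂ) (z : Fin n → ℂ) :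
    z ∉ Submodule.span ℂ (Set.range B) ↔
      ∃ φ : Fin n → ℂ, (∀ j, ∑ q, B j q * φ q = 0) ∧ ∑ q, z q * φ q = 1 := by
  constructor
  · intro h
    obtain ⟨f, hf, hf'⟩ := Submodule.exists_le_ker_of_notMem h
    have hval : ∀ v : Fin n → ℂ, f v = ∑ q, v q * f (Pi.single q 1) := by
      intro v
      have h3 : v = ∑ q, v q • (Pi.single q 1 : Fin n → ℂ) := by
        funext q
        simp [Finset.sum_apply, Pi.single_apply]
      conv_lhs => rw [h3]
      rw [map_sum]
      exact Finset.sum_congr rfl fun q _ => by rw [map_smul, smul_eq_mul]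
    refine ⟨fun q => (f z)⁻¹ * f (Pi.single q 1), fun j => ?_, ?_⟩
    · have h4 : f (B j) = 0 := hf' (Submodule.subset_span ⟨j, rfl⟩)
      rw [hval] at h4
      have h5 : ∑ q, B j q * ((f z)⁻¹ * f (Pi.single q 1)) =
          (f z)⁻¹ * ∑ q, B j q * f (Pi.single q 1) := by
        rw [Finset.mul_sum]
        exact Finset.sum_congr rfl fun q _ => by ring
      rw [h5, h4, mul_zero]
    · have h5 : ∑ q, z q * ((f z)⁻¹ * f (Pi.single q 1)) =
          (f z)⁻¹ * ∑ q, z q * f (Pi.single q 1) := by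
        rw [Finset.mul_sum]
        exact Finset.sum_congr rfl fun q _ => by ring
      rw [h5, ← hval, inv_mul_cancel₀ hf]
  · rintro ⟨φ, h1, h2⟩ hz
    obtain ⟨u, hu⟩ := (mem_range_iff B z).1 hz
    have h3 : ∑ q, z q * φ q = 0 := by
      calc ∑ q, z q * φ q = ∑ j, u j * ∑ q, B j q * φ q := by
            simp only [hu, Finset.mul_sum, Finset.sum_mul]
            rw [Finset.sum_comm]
            exact Finset.sum_congr rfl fun q _ => Finset.sum_congr rfl fun r _ => by ring
        _ = 0 := by simp [h1]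
    rw [h3] at h2
    exact zero_ne_one h2

section form

variable (k n m d : ℕ)

/-- indices of vectors in the frames -/
abbrev K1 := Fin d × Fin k × Fin n
/-- indices of coefficients with respect to the frames -/
abbrev K2 := Fin d × Fin m × ((i : Fin k) × Fin ((i : ℕ) + 1) × Fin k)
/-- indices of coefficients with respect to the flags -/
abbrev K3 := Fin d × Fin m × ((i : Fin k) × Fin ((i : ℕ) + 1) × Fin n)
/-- indices of coefficients of a vector for every pair -/
abbrev K4 := Fin d × Fin d × Fin k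
/-- indices of a functional for every pair -/
abbrev K5 := Fin d × Fin d × Fin n

variable {k n m d}

/-- the equations -/
def Rel (lam : Fin m → Fin k → ℕ) (a : Fin m × Fin n × Fin n → ℂ) (B B' : K1 k n d → ℂ)
    (u : K2 k m d → ℂ) (w z : K3 k n m d → ℂ) (v : K4 k d → ℂ) (φ : K5 n d → ℂ) : Prop :=
  (∀ (s : Fin d) (r r' : Fin k),
      ∑ q : Fin n, B (s, r, q) * B' (s, r', q) = if r = r' then 1 else 0) ∧
  (∀ (s : Fin d) (l : Fin m) (i : Fin k) (r : Fin ((i : ℕ) + 1)) (q : Fin n),
      ∑ j : Fin k, u (s, l, ⟨i, r, j⟩) * B (s, j, q) =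
        ∑ p : Fin n, (if (p : ℕ) < sidx k n (lam l) i then w (s, l, ⟨i, r, p⟩) else 0) *
          a (l, p, q)) ∧
  (∀ (s : Fin d) (l : Fin m) (i : Fin k) (r r' : Fin ((i : ℕ) + 1)),
      ∑ q : Fin n, (∑ j : Fin k, u (s, l, ⟨i, r, j⟩) * B (s, j, q)) * z (s, l, ⟨i, r', q⟩) =
        if r = r' then 1 else 0) ∧
  (∀ (s t : Fin d), s ≠ t → (∀ j : Fin k, ∑ q : Fin n, B (t, j, q) * φ (s, t, q) = 0) ∧
      ∑ q : Fin n, (∑ j : Fin k, v (s, t, j) * B (s, j, q)) * φ (s, t, q) = 1)

lemma rel_iff (hm : 0 < m) (lam : Fin m → Fin k → ℕ) (A : Fin m → Matrix (Fin n) (Fin n) ℂ) :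
    ((d : ℕ∞) ≤ (⋂ l, schub k n (lam l) (flagOf n (A l))).encard) ↔
      ∃ B B' u w z v φ, Rel (k := k) (n := n) (m := m) (d := d) lam
        (fun y => A y.1 y.2.1 y.2.2) B B' u w z v φ := by
  rw [le_encard_iff]
  constructor
  · rintro ⟨H, hinj, hH⟩
    have hdim : ∀ s, finrank ℂ ↥(H s) = k := fun s => (Set.mem_iInter.1 (hH s) ⟨0, hm⟩).1
    have hB : ∀ s, ∃ B : Fin k → Fin n → ℂ, LinearIndependent ℂ B ∧
        Submodule.span ℂ (Set.range B) = H s := by
      intro s
      let b := (finBasisOfFinrankEq ℂ ↥(H s) (hdim s))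
      refine ⟨fun j => (b j : Fin n → ℂ), ?_, ?_⟩
      · exact b.linearIndependent.map' (H s).subtype (Submodule.ker_subtype _)
      · have h1 : Set.range (fun j => (b j : Fin n → ℂ)) = (H s).subtype '' Set.range b := by
          rw [← Set.range_comp]
          rfl
        rw [h1, ← Submodule.map_span, b.span_eq, Submodule.map_top, Submodule.range_subtype]
    choose B hBi hBs using hB
    have hB' := fun s => (li_iff (B s)).1 (hBi s)
    choose B' hB' using hB'
    have hz : ∀ s l (i : Fin k), ∃ z : Fin ((i : ℕ) + 1) → Fin n → ℂ, LinearIndependent ℂ z ∧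
        ∀ r, z r ∈ H s ∧ z r ∈ flagOf n (A l) (sidx k n (lam l) i) := by
      intro s l i
      have h1 := (Set.mem_iInter.1 (hH s) l).2 i
      obtain ⟨f, hf⟩ := exists_linearIndependent_of_le_finrank h1
      refine ⟨fun r => (f r : Fin n → ℂ), hf.map' (Submodule.subtype _) (Submodule.ker_subtype _),
        fun r => ⟨(f r).2.1, (f r).2.2⟩⟩
    choose z hzi hz using hz
    have hu : ∀ s l (i : Fin k) (r : Fin ((i : ℕ) + 1)), ∃ u : Fin k → ℂ,
        ∀ q, z s l i r q = ∑ j, u j * B s j q := by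
      intro s l i r
      rw [← mem_range_iff, hBs]
      exact (hz s l i r).1
    choose u hu using hu
    have hw : ∀ s l (i : Fin k) (r : Fin ((i : ℕ) + 1)), ∃ w : Fin n → ℂ,
        ∀ q, z s l i r q = ∑ p : Fin n, (if (p : ℕ) < sidx k n (lam l) i then w p else 0) *
          A l p q := fun s l i r => (mem_flagOf _ _ _).1 (hz s l i r).2
    choose w hw using hw
    have hz' := fun s l i => (li_iff (z s l i)).1 (hzi s l i)
    choose z' hz' using hz'
    have hv : ∀ s t, ∃ (v : Fin k → ℂ) (φ : Fin n → ℂ), s ≠ t →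
        (∀ j, ∑ q, B t j q * φ q = 0) ∧ ∑ q, (∑ j, v j * B s j q) * φ q = 1 := by
      intro s t
      by_cases hst : s = t
      · exact ⟨0, 0, fun h => absurd hst h⟩
      · have h1 : ∃ y ∈ H s, y ∉ H t := by
          by_contra hc
          push Not at hc
          apply hst
          apply hinj
          apply Submodule.eq_of_le_of_finrank_eq hc
          rw [hdim, hdim]
        obtain ⟨y, hy, hy'⟩ := h1
        rw [← hBs s, mem_range_iff] at hy
        rw [← hBs t, notMem_iff] at hy'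
        obtain ⟨v, hv⟩ := hy
        obtain ⟨φ, h2, h3⟩ := hy'
        refine ⟨v, φ, fun _ => ⟨h2, ?_⟩⟩
        rw [← h3]
        exact Finset.sum_congr rfl fun q _ => by rw [hv]
    choose v φ hvφ using hv
    refine ⟨fun x => B x.1 x.2.1 x.2.2, fun x => B' x.1 x.2.1 x.2.2,
      fun x => u x.1 x.2.1 x.2.2.1 x.2.2.2.1 x.2.2.2.2,
      fun x => w x.1 x.2.1 x.2.2.1 x.2.2.2.1 x.2.2.2.2,
      fun x => z' x.1 x.2.1 x.2.2.1 x.2.2.2.1 x.2.2.2.2,
      fun x => v x.1 x.2.1 x.2.2, fun x => φ x.1 x.2.1 x.2.2, ?_, ?_, ?_, ?_⟩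
    · intro s r r'
      exact hB' s r r'
    · intro s l i r q
      exact (hu s l i r q).symm.trans (hw s l i r q)
    · intro s l i r r'
      rw [← hz' s l i r r']
      exact Finset.sum_congr rfl fun q _ => by rw [hu]
    · intro s t hst
      exact hvφ s t hst
  · rintro ⟨B, B', u, w, z, v, φ, h1, h2, h3, h4⟩
    have hBi : ∀ s, LinearIndependent ℂ (fun j : Fin k => fun q : Fin n => B (s, j, q)) :=
      fun s => (li_iff _).2 ⟨fun j q => B' (s, j, q), h1 s⟩
    refine ⟨fun s => Submodule.span ℂ (Set.range fun j : Fin k => fun q : Fin n => B (s, j, q)),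
      ?_, ?_⟩
    · intro s t hst
      by_contra hne
      obtain ⟨h5, h6⟩ := h4 s t hne
      have h7 : (fun q => ∑ j : Fin k, v (s, t, j) * B (s, j, q)) ∉
          Submodule.span ℂ (Set.range fun j : Fin k => fun q : Fin n => B (t, j, q)) :=
        (notMem_iff _ _).2 ⟨fun q => φ (s, t, q), h5, h6⟩
      apply h7
      have h8 : Submodule.span ℂ (Set.range fun j : Fin k => fun q : Fin n => B (s, j, q)) =
        Submodule.span ℂ (Set.range fun j : Fin k => fun q : Fin n => B (t, j, q)) := hst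
      rw [← h8, mem_range_iff]
      exact ⟨fun j => v (s, t, j), fun q => rfl⟩
    · intro s
      rw [Set.mem_iInter]
      intro l
      refine ⟨?_, fun i => ?_⟩
      · rw [finrank_span_eq_card (hBi s), Fintype.card_fin]
      · have h5 : LinearIndependent ℂ (fun r : Fin ((i : ℕ) + 1) => fun q : Fin n =>
            ∑ j : Fin k, u (s, l, ⟨i, r, j⟩) * B (s, j, q)) :=
          (li_iff _).2 ⟨fun r q => z (s, l, ⟨i, r, q⟩), h3 s l i⟩
        have h6 : ∀ r : Fin ((i : ℕ) + 1), (fun q : Fin n =>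
            ∑ j : Fin k, u (s, l, ⟨i, r, j⟩) * B (s, j, q)) ∈
            Submodule.span ℂ (Set.range fun j : Fin k => fun q : Fin n => B (s, j, q)) ⊓
              flagOf n (A l) (sidx k n (lam l) i) := by
          intro r
          refine ⟨(mem_range_iff _ _).2 ⟨fun j => u (s, l, ⟨i, r, j⟩), fun q => rfl⟩, ?_⟩
          rw [SetLike.mem_coe, mem_flagOf]
          exact ⟨fun p => w (s, l, ⟨i, r, p⟩), h2 s l i r⟩
        have h7 := finrank_span_eq_card h5
        rw [Fintype.card_fin] at h7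
        rw [← h7]
        apply Submodule.finrank_mono
        rw [Submodule.span_le]
        rintro _ ⟨r, rfl⟩
        exact h6 r

lemma al_rel (lam : Fin m → Fin k → ℕ) :
    AL (fun x : (Fin m × Fin n × Fin n) ⊕ (K1 k n d ⊕ K1 k n d ⊕ K2 k m d ⊕ K3 k n m d ⊕
        K3 k n m d ⊕ K4 k d ⊕ K5 n d) → ℂ =>
      Rel lam (fun y => x (Sum.inl y)) (fun y => x (Sum.inr (Sum.inl y)))
        (fun y => x (Sum.inr (Sum.inr (Sum.inl y))))
        (fun y => x (Sum.inr (Sum.inr (Sum.inr (Sum.inl y)))))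
        (fun y => x (Sum.inr (Sum.inr (Sum.inr (Sum.inr (Sum.inl y))))))
        (fun y => x (Sum.inr (Sum.inr (Sum.inr (Sum.inr (Sum.inr (Sum.inl y)))))))
        (fun y => x (Sum.inr (Sum.inr (Sum.inr (Sum.inr (Sum.inr (Sum.inr (Sum.inl y))))))))
        (fun y => x (Sum.inr (Sum.inr (Sum.inr (Sum.inr (Sum.inr (Sum.inr (Sum.inr y))))))))) := by
  refine AL.and ?_ (AL.and ?_ (AL.and ?_ ?_))
  · refine AL.all fun s => AL.all fun r => AL.all fun r' => AL.eq ?_ (PF.const _)
    exact PF.sum _ fun q => (PF.coord _).mul (PF.coord _)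
  · refine AL.all fun s => AL.all fun l => AL.all fun i => AL.all fun r => AL.all fun q =>
      AL.eq ?_ ?_
    · exact PF.sum _ fun j => (PF.coord _).mul (PF.coord _)
    · exact PF.sum _ fun j => (PF.ite _ (PF.coord _) (PF.const 0)).mul (PF.coord _)
  · refine AL.all fun s => AL.all fun l => AL.all fun i => AL.all fun r => AL.all fun r' =>
      AL.eq ?_ (PF.const _)
    exact PF.sum _ fun q => (PF.sum _ fun j => (PF.coord _).mul (PF.coord _)).mul (PF.coord _)
  · refine AL.all fun s => AL.all fun t => AL.all fun hst => AL.and ?_ ?_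
    · exact AL.all fun j => AL.eq (PF.sum _ fun q => (PF.coord _).mul (PF.coord _)) (PF.const 0)
    · exact AL.eq (PF.sum _ fun q =>
        (PF.sum _ fun j => (PF.coord _).mul (PF.coord _)).mul (PF.coord _)) (PF.const 1)

end form

/-- the condition that there are at least `d` solutions -/
theorem exists_form (k n m d : ℕ) (hkn : k ≤ n) (lam : Fin m → Fin k → ℕ) :
    ∃ (κ : Type) (_ : Finite κ) (S : Set (MvPolynomial ((Fin m × Fin n × Fin n) ⊕ κ) ℂ)),
      ∀ A : Fin m → Matrix (Fin n) (Fin n) ℂ, (∀ l, (A l).det ≠ 0) →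
        ((d : ℕ∞) ≤ (⋂ l, schub k n (lam l) (flagOf n (A l))).encard ↔
          ∃ x : κ → ℂ, ∀ p ∈ S,
            MvPolynomial.eval (Sum.elim (fun y => A y.1 y.2.1 y.2.2) x) p = 0) := by
  rcases Nat.eq_zero_or_pos m with rfl | hm
  · by_cases h : (d : ℕ∞) ≤ (Set.univ : Set (Submodule ℂ (V n))).encard
    · refine ⟨Empty, inferInstance, ∅, fun A _ => ?_⟩
      rw [Set.iInter_of_empty]
      simpa using h
    · refine ⟨Empty, inferInstance, {1}, fun A _ => ?_⟩
      rw [Set.iInter_of_empty]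
      simpa using h
  · obtain ⟨S, hS⟩ := al_rel (k := k) (n := n) (m := m) (d := d) lam
    refine ⟨_, inferInstance, S, fun A _ => ?_⟩
    rw [rel_iff hm lam A]
    constructor
    · rintro ⟨B, B', u, w, z, v, φ, h⟩
      refine ⟨Sum.elim B (Sum.elim B' (Sum.elim u (Sum.elim w (Sum.elim z (Sum.elim v φ))))), ?_⟩
      rw [← hS]
      exact h
    · rintro ⟨x, hx⟩
      rw [← hS] at hx
      exact ⟨_, _, _, _, _, _, _, hx⟩

end Pool.CTG
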