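import Mathlib

/-! Row GD. Generic dichotomy: the projection of an algebraic set, or its complement, contains the
complement of a hypersurface. -/

namespace Pool.CTG

open MvPolynomial in
theorem gen_dich {ι κ : Type} [Finite ι] [Finite κ] (S : Set (MvPolynomial (ι ⊕ κ) ℂ)) :
    ∃ P : MvPolynomial ι ℂ, P ≠ 0 ∧
      ((∀ a : ι → ℂ, MvPolynomial.eval a P ≠ 0 →
          ∃ x : κ → ℂ, ∀ p ∈ S, MvPolynomial.eval (Sum.elim a x) p = 0) ∨
        (∀ a : ι → ℂ, MvPolynomial.eval a P ≠ 0 →
          ∀ x : κ → ℂ, ∃ p ∈ S, MvPolynomial.eval (Sum.elim a x) p ≠ 0)) := by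
  classical
  set J : Ideal (MvPolynomial (ι ⊕ κ) ℂ) := Ideal.span S with hJ
  set r : MvPolynomial ι ℂ →+* MvPolynomial (ι ⊕ κ) ℂ :=
    (rename Sum.inl : MvPolynomial ι ℂ →ₐ[ℂ] MvPolynomial (ι ⊕ κ) ℂ).toRingHom with hr
  set φ : MvPolynomial ι ℂ →+* (MvPolynomial (ι ⊕ κ) ℂ ⧸ J) := (Ideal.Quotient.mk J).comp r with hφ
  have hre : ∀ (z : ι ⊕ κ → ℂ) (P : MvPolynomial ι ℂ), eval z (r P) = eval (z ∘ Sum.inl) P := by
    intro z P
    simp [hr, eval_rename]
  by_cases hinj : Function.Injective φ
  · -- generic point in the range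
    have hfp : φ.FinitePresentation := by
      have h1 : (φ.comp (C : ℂ →+* MvPolynomial ι ℂ)).FiniteType := by
        have h2 : φ.comp (C : ℂ →+* MvPolynomial ι ℂ) =
            algebraMap ℂ (MvPolynomial (ι ⊕ κ) ℂ ⧸ J) := by
          ext c
          simp [hφ, hr]
          rfl
        rw [h2]
        exact RingHom.finiteType_algebraMap.mpr inferInstance
      exact RingHom.FinitePresentation.of_finiteType.mp (RingHom.FiniteType.of_comp_finiteType h1)
    obtain ⟨T, hT⟩ := PrimeSpectrum.exists_constructibleSetData_iff.mpr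
      (PrimeSpectrum.isConstructible_range_comap hfp)
    have hbot : (⊥ : Ideal (MvPolynomial ι ℂ)) ∈ minimalPrimes (MvPolynomial ι ℂ) := by
      rw [IsDomain.minimalPrimes_eq_singleton_bot]
      rfl
    obtain ⟨q, hq, hqb⟩ := Ideal.exists_comap_eq_of_mem_minimalPrimes_of_injective hinj _ hbot
    have hmem : PrimeSpectrum.comap φ ⟨q, hq⟩ ∈ T.toSet := by
      rw [hT]
      exact ⟨_, rfl⟩
    simp only [PrimeSpectrum.ConstructibleSetData.toSet, Set.mem_iUnion] at hmem
    obtain ⟨c, hc, hmem⟩ := hmem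
    simp only [PrimeSpectrum.BasicConstructibleSetData.toSet, Set.mem_sdiff,
      PrimeSpectrum.mem_zeroLocus] at hmem
    obtain ⟨hm1, hm2⟩ := hmem
    have hg : ∀ i, c.g i = 0 := by
      intro i
      have := hm1 ⟨i, rfl⟩
      have h3 : c.g i ∈ q.comap φ := this
      rw [hqb] at h3
      simpa using h3
    have hf : c.f ≠ 0 := by
      intro h0
      apply hm2
      intro y hy
      rw [Set.mem_singleton_iff] at hy
      rw [hy, h0]
      exact Ideal.zero_mem _
    refine ⟨c.f, hf, Or.inl fun a ha => ?_⟩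
    -- the point a
    have hprime : (RingHom.ker (eval a)).IsPrime := RingHom.ker_isPrime _
    have hamem : (⟨RingHom.ker (eval a), hprime⟩ : PrimeSpectrum (MvPolynomial ι ℂ)) ∈
        Set.range (PrimeSpectrum.comap φ) := by
      rw [← hT]
      simp only [PrimeSpectrum.ConstructibleSetData.toSet, Set.mem_iUnion]
      refine ⟨c, hc, ?_, ?_⟩
      · rw [PrimeSpectrum.mem_zeroLocus]
        rintro _ ⟨i, rfl⟩
        rw [hg i]
        exact Ideal.zero_mem _
      · rw [PrimeSpectrum.mem_zeroLocus]
        intro h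
        exact ha (h rfl)
    obtain ⟨p, hp⟩ := hamem
    have hp' : p.asIdeal.comap φ = RingHom.ker (eval a) := by
      have := congrArg PrimeSpectrum.asIdeal hp
      exact this
    -- pull back to the polynomial ring and take a maximal ideal above
    set p0 : Ideal (MvPolynomial (ι ⊕ κ) ℂ) := p.asIdeal.comap (Ideal.Quotient.mk J) with hp0
    have hp0p : p0.IsPrime := p.2.comap _
    obtain ⟨M, hM, hpM⟩ := Ideal.exists_le_maximal p0 hp0p.ne_top
    obtain ⟨z, hz⟩ := eq_vanishingIdeal_singleton_of_isMaximal ℂ hM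
    have hzM : ∀ f ∈ M, eval z f = 0 := by
      intro f hf
      rw [hz, mem_vanishingIdeal_singleton_iff] at hf
      simpa using hf
    have hSJ : ∀ f ∈ S, f ∈ M := by
      intro f hf
      apply hpM
      rw [hp0, Ideal.mem_comap]
      have : (Ideal.Quotient.mk J) f = 0 := by
        rw [Ideal.Quotient.eq_zero_iff_mem]
        exact Ideal.subset_span hf
      rw [this]
      exact Ideal.zero_mem _
    have hza : z ∘ Sum.inl = a := by
      funext i
      have h1 : (X i - C (a i) : MvPolynomial ι ℂ) ∈ p.asIdeal.comap φ := by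
        rw [hp', RingHom.mem_ker]
        simp
      have h2 : r (X i - C (a i)) ∈ M := by
        apply hpM
        rw [hp0, Ideal.mem_comap]
        exact h1
      have h3 := hzM _ h2
      rw [hre] at h3
      simp at h3
      simpa [sub_eq_zero] using h3
    refine ⟨z ∘ Sum.inr, fun f hf => ?_⟩
    have : Sum.elim a (z ∘ Sum.inr) = z := by
      rw [← hza]
      exact Sum.elim_comp_inl_inr z
    rw [this]
    exact hzM _ (hSJ f hf)
  · -- a polynomial in the kernel
    rw [injective_iff_map_eq_zero] at hinj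
    push Not at hinj
    obtain ⟨P, hP0, hP⟩ := hinj
    refine ⟨P, hP, Or.inr fun a ha x => ?_⟩
    by_contra hcon
    push Not at hcon
    apply ha
    have h1 : r P ∈ J := by
      rw [← Ideal.Quotient.eq_zero_iff_mem]
      exact hP0
    have h2 : J ≤ RingHom.ker (eval (Sum.elim a x)) := by
      rw [hJ, Ideal.span_le]
      intro f hf
      exact hcon f hf
    have h3 := h2 h1
    rw [RingHom.mem_ker, hre] at h3
    simpa using h3

end Pool.CTG
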