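import Pool.Agent.CTG.Cpt
import Pool.Agent.CTG.Form
import Pool.Agent.CTG.GD

/-! Row FIN. The number of points of a transverse intersection is the number for general flags. -/

namespace Pool.CTG

open Module Pool.CSC Filter Topology

section flags

variable {n : ℕ}

/-- every flag is the flag of an invertible matrix -/
lemma exists_matrix {F : ℕ → Submodule ℂ (V n)} (hF : IsFlag n F) :
    ∃ A : Matrix (Fin n) (Fin n) ℂ, A.det ≠ 0 ∧ ∀ j ≤ n, flagOf n A j = F j := by
  obtain ⟨h, hh⟩ := exists_adapted hF ⊤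
  have h1 : ∀ j ≤ n, F j = sp h j := by
    intro j hj
    have h2 := hh j hj
    rw [top_inf_eq, hF.dim j hj] at h2
    exact h2
  let A : Matrix (Fin n) (Fin n) ℂ := Matrix.of fun i : Fin n => h i
  have hA : ∀ i : Fin n, A i = h i := fun i => rfl
  have h3 : ∀ j ≤ n, flagOf n A j = sp h j := by
    intro j hj
    rw [flagOf, sp]
    congr 1
    ext v
    constructor
    · rintro ⟨i, hi, rfl⟩
      exact ⟨i, hi, rfl⟩
    · rintro ⟨i, hi, rfl⟩
      exact ⟨⟨i, by omega⟩, hi, rfl⟩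
  refine ⟨A, ?_, fun j hj => by rw [h3 j hj, h1 j hj]⟩
  have h4 : Submodule.span ℂ (Set.range A) = ⊤ := by
    have h5 : F n = ⊤ := by
      apply Submodule.eq_top_of_finrank_eq
      rw [hF.dim n le_rfl]
      simp
    rw [← h5, h1 n le_rfl, ← h3 n le_rfl, flagOf]
    congr 1
    ext v
    constructor
    · rintro ⟨i, rfl⟩
      exact ⟨i, i.2, rfl⟩
    · rintro ⟨i, -, rfl⟩
      exact ⟨i, rfl⟩
  have h6 : LinearIndependent ℂ A :=
    linearIndependent_of_top_le_span_of_card_eq_finrank h4.ge (by simp)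
  have h7 : IsUnit A := Matrix.linearIndependent_rows_iff_isUnit.1 h6
  exact ((Matrix.isUnit_iff_isUnit_det A).1 h7).ne_zero

/-- the linear map of a matrix acting on rows -/
noncomputable def mapOf (n : ℕ) : (Matrix (Fin n) (Fin n) ℂ) →ₗ[ℂ] E n where
  toFun M := LinearMap.toContinuousLinearMap (Matrix.vecMulLinear M)
  map_add' := by
    intro M N
    ext1 v
    exact Matrix.vecMul_add M N v
  map_smul' := by
    intro c M
    ext1 v
    exact Matrix.vecMul_smul v c M

lemma mapOf_apply (M : Matrix (Fin n) (Fin n) ℂ) (v : V n) : mapOf n M v = Matrix.vecMul v M := rfl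

lemma im_flagOf (M A : Matrix (Fin n) (Fin n) ℂ) (j : ℕ) :
    im (mapOf n M) (flagOf n A j) = flagOf n (A * M) j := by
  rw [im, flagOf, flagOf, Submodule.map_span]
  congr 1
  ext v
  constructor
  · rintro ⟨_, ⟨i, hi, rfl⟩, rfl⟩
    exact ⟨i, hi, rfl⟩
  · rintro ⟨i, hi, rfl⟩
    exact ⟨A i, ⟨i, hi, rfl⟩, rfl⟩

lemma schub_congr {k : ℕ} (hkn : k ≤ n) {lam : Fin k → ℕ} {F F' : ℕ → Submodule ℂ (V n)}
    (h : ∀ j ≤ n, F j = F' j) : schub k n lam F = schub k n lam F' := by
  ext H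
  have h1 : ∀ i : Fin k, F (sidx k n lam i) = F' (sidx k n lam i) := fun i => h _ (sidx_le hkn i)
  constructor
  · rintro ⟨h2, h3⟩
    refine ⟨h2, fun i => ?_⟩
    rw [← h1]
    exact h3 i
  · rintro ⟨h2, h3⟩
    refine ⟨h2, fun i => ?_⟩
    rw [h1]
    exact h3 i

end flags

/-- a nonzero polynomial is nonzero at some point of every neighbourhood -/
lemma exists_near {ι : Type} [Fintype ι] {P : MvPolynomial ι ℂ} (hP : P ≠ 0) {a₀ : ι → ℂ}
    {p : (ι → ℂ) → Prop} (hp : ∀ᶠ a in 𝓝 a₀, p a) : ∃ a, p a ∧ MvPolynomial.eval a P ≠ 0 := by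
  obtain ⟨ε, hε, hball⟩ := Metric.eventually_nhds_iff_ball.1 hp
  by_contra hc
  push Not at hc
  apply hP
  have hinf : ∀ i, (Metric.ball (a₀ i) ε).Infinite := fun i =>
    infinite_of_mem_nhds (a₀ i) (Metric.ball_mem_nhds _ hε)
  refine MvPolynomial.funext_set (fun i => Metric.ball (a₀ i) ε) hinf (p := P) (q := 0)
    fun x hx => ?_
  rw [map_zero]
  refine hc x (hball x ?_)
  rw [ball_pi _ hε]
  exact hx

/-- If the intersection of Schubert varieties is transverse then its number of points is finite and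
is the number for general flags. -/
theorem generic_of_transverse {k n m : ℕ} (hkn : k ≤ n) {lam : Fin m → Fin k → ℕ}
    (hlam : IsProblem k n m lam) {F : Fin m → ℕ → Submodule ℂ (V n)} (hF : ∀ l, IsFlag n (F l))
    (htr : ∀ H ∈ ⋂ l, schub k n (lam l) (F l), ∀ φ : ↥H →ₗ[ℂ] (Fin n → ℂ) ⧸ H,
      (∀ l, TangentTo k n (lam l) (F l) H φ) → φ = 0) :
    ∃ d : ℕ, IsGenericNumber k n m lam d ∧ (⋂ l, schub k n (lam l) (F l)).encard = d := by
  classical
  obtain ⟨d, hd, hloc⟩ := loc_const hkn hlam hF htr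
  choose A₀ hA₀ hA₀F using fun l => exists_matrix (hF l)
  refine ⟨d, ?_, hd⟩
  -- the matrices with entries `a`
  let Am : (Fin m × Fin n × Fin n → ℂ) → Fin m → Matrix (Fin n) (Fin n) ℂ :=
    fun a l => Matrix.of fun i j => a (l, i, j)
  let a₀ : Fin m × Fin n × Fin n → ℂ := fun y => A₀ y.1 y.2.1 y.2.2
  have hev : ∀ᶠ a in 𝓝 a₀, (∀ l, (Am a l).det ≠ 0) ∧
      (⋂ l, schub k n (lam l) (flagOf n (Am a l))).encard = d := by
    refine Filter.Eventually.and ?_ ?_
    · refine eventually_all.2 fun l => ?_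
      have h1 : Continuous fun a => (Am a l).det := by
        refine Continuous.matrix_det ?_
        refine continuous_pi fun i => continuous_pi fun j => ?_
        exact continuous_apply _
      exact h1.continuousAt.eventually_ne (hA₀ l)
    · have h2 : Tendsto (fun a : Fin m × Fin n × Fin n → ℂ => fun l =>
          mapOf n ((A₀ l)⁻¹ * Am a l)) (𝓝 a₀) (𝓝 1) := by
        rw [tendsto_pi_nhds]
        intro l
        have h3 : Continuous fun a : Fin m × Fin n × Fin n → ℂ => mapOf n ((A₀ l)⁻¹ * Am a l) := by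
          have h4 : Continuous (mapOf n) := LinearMap.continuous_of_finiteDimensional _
          refine h4.comp (Continuous.matrix_mul continuous_const ?_)
          refine continuous_pi fun i => continuous_pi fun j => ?_
          exact continuous_apply _
        refine h3.tendsto' _ _ ?_
        have h5 : (A₀ l)⁻¹ * Am a₀ l = 1 :=
          Matrix.nonsing_inv_mul _ (isUnit_iff_ne_zero.2 (hA₀ l))
        rw [h5]
        ext1 v
        exact Matrix.vecMul_one v
      filter_upwards [h2.eventually hloc] with a ha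
      rw [← ha, Inter]
      congr 1
      refine Set.iInter_congr fun l => schub_congr hkn fun j hj => ?_
      rw [← hA₀F l j hj, im_flagOf, ← mul_assoc,
        Matrix.mul_nonsing_inv _ (isUnit_iff_ne_zero.2 (hA₀ l)), one_mul]
  obtain ⟨κ₁, hκ₁, S₁, hS₁⟩ := exists_form k n m d hkn lam
  obtain ⟨κ₂, hκ₂, S₂, hS₂⟩ := exists_form k n m (d + 1) hkn lam
  obtain ⟨P₁, hP₁, hc₁⟩ := gen_dich S₁
  obtain ⟨P₂, hP₂, hc₂⟩ := gen_dich S₂
  have hAm : ∀ a, (fun y : Fin m × Fin n × Fin n => Am a y.1 y.2.1 y.2.2) = a := fun a => rfl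
  have h₁ : ∀ a : Fin m × Fin n × Fin n → ℂ, MvPolynomial.eval a P₁ ≠ 0 →
      ∃ x : κ₁ → ℂ, ∀ p ∈ S₁, MvPolynomial.eval (Sum.elim a x) p = 0 := by
    rcases hc₁ with h | h
    · exact h
    · obtain ⟨a, ⟨ha1, ha2⟩, ha3⟩ := exists_near hP₁ hev
      have h1 := (hS₁ (Am a) ha1).1 (by rw [ha2])
      rw [hAm] at h1
      obtain ⟨x, hx⟩ := h1
      obtain ⟨p, hp, hp0⟩ := h a ha3 x
      exact absurd (hx p hp) hp0
  have h₂ : ∀ a : Fin m × Fin n × Fin n → ℂ, MvPolynomial.eval a P₂ ≠ 0 →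
      ∀ x : κ₂ → ℂ, ∃ p ∈ S₂, MvPolynomial.eval (Sum.elim a x) p ≠ 0 := by
    rcases hc₂ with h | h
    · obtain ⟨a, ⟨ha1, ha2⟩, ha3⟩ := exists_near hP₂ hev
      have h1 := hS₂ (Am a) ha1
      rw [hAm] at h1
      have h2 := h1.2 (h a ha3)
      rw [ha2] at h2
      have h3 : d + 1 ≤ d := by exact_mod_cast h2
      omega
    · exact h
  refine ⟨P₁ * P₂, mul_ne_zero hP₁ hP₂, fun A hA hev' => ?_⟩
  rw [map_mul] at hev'
  have e1 := (hS₁ A hA).2 (h₁ _ (left_ne_zero_of_mul hev'))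
  have e2 : ¬ (((d + 1 : ℕ) : ℕ∞) ≤ (⋂ l, schub k n (lam l) (flagOf n (A l))).encard) := by
    intro hc
    obtain ⟨x, hx⟩ := (hS₂ A hA).1 hc
    obtain ⟨p, hp, hp0⟩ := h₂ _ (right_ne_zero_of_mul hev') x
    exact hp0 (hx p hp)
  refine le_antisymm ?_ e1
  rw [not_le] at e2
  push_cast at e2
  exact Order.lt_add_one_iff_of_not_isMax (by simp) |>.1 e2

end Pool.CTG
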