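import Pool.Agent.CTG.Loc

/-! Row ISO. A transverse solution is isolated and deforms uniquely. -/

namespace Pool.CTG

open Module Pool.CSC Filter Topology

section basic

variable {n : ℕ}

lemma im_mul (A B : E n) (H : Submodule ℂ (V n)) : im (A * B) H = im A (im B H) := by
  ext x
  constructor
  · rintro ⟨y, hy, rfl⟩
    exact ⟨B y, ⟨y, hy, rfl⟩, rfl⟩
  · rintro ⟨_, ⟨y, hy, rfl⟩, rfl⟩
    exact ⟨y, hy, rfl⟩

lemma im_one (H : Submodule ℂ (V n)) : im (1 : E n) H = H := by
  ext x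
  constructor
  · rintro ⟨y, hy, rfl⟩
    exact hy
  · intro hx
    exact ⟨x, hx, rfl⟩

lemma inj_of_unit {M : E n} (hM : IsUnit M) : Function.Injective M := by
  intro x y hxy
  have h2 : ∀ y, Ring.inverse M (M y) = y := by
    intro y
    have := Ring.inverse_mul_cancel M hM
    rw [← mul_apply_eq_comp, this, one_apply_eq_self]
  rw [← h2 x, ← h2 y, hxy]

lemma im_inf {g : E n} (hg : IsUnit g) (A B : Submodule ℂ (V n)) :
    im g (A ⊓ B) = im g A ⊓ im g B := by
  ext x
  constructor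
  · rintro ⟨y, hy, rfl⟩
    exact ⟨⟨y, hy.1, rfl⟩, ⟨y, hy.2, rfl⟩⟩
  · rintro ⟨⟨y, hy, hyx⟩, ⟨z, hz, hzx⟩⟩
    have h1 : y = z := inj_of_unit hg (hyx.trans hzx.symm)
    subst h1
    exact ⟨y, ⟨hy, hz⟩, hyx⟩

lemma schub_im {k : ℕ} {lam : Fin k → ℕ} {F : ℕ → Submodule ℂ (V n)} {H : Submodule ℂ (V n)}
    {g : E n} (hg : IsUnit g) :
    im g H ∈ schub k n lam (fun j => im g (F j)) ↔ H ∈ schub k n lam F := by
  have h1 : ∀ A : Submodule ℂ (V n), finrank ℂ ↥(im g H ⊓ im g A) = finrank ℂ ↥(H ⊓ A) := by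
    intro A
    rw [← im_inf hg, finrank_im hg]
  constructor
  · rintro ⟨h2, h3⟩
    refine ⟨?_, fun i => ?_⟩
    · rw [finrank_im hg] at h2
      exact h2
    · have h4 : (i : ℕ) + 1 ≤ finrank ℂ ↥(im g H ⊓ im g (F (sidx k n lam i))) := h3 i
      rw [h1] at h4
      exact h4
  · rintro ⟨h2, h3⟩
    refine ⟨?_, fun i => ?_⟩
    · rw [finrank_im hg]
      exact h2
    · have h4 : (i : ℕ) + 1 ≤ finrank ℂ ↥(im g H ⊓ im g (F (sidx k n lam i))) := by
        rw [h1]
        exact h3 i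
      exact h4

lemma inv_mul_deriv {R : Type*} [NormedRing R] [NormedAlgebra ℂ R] [HasSummableGeomSeries R] :
    HasStrictFDerivAt (fun p : R × R => Ring.inverse p.1 * (1 + p.2))
      (-ContinuousLinearMap.fst ℂ R R + ContinuousLinearMap.snd ℂ R R) ((1 : R), (0 : R)) := by
  have h5 : HasStrictFDerivAt (Ring.inverse : R → R)
      (-ContinuousLinearMap.mulLeftRight ℂ R 1 1) (((1 : R), (0 : R)) : R × R).1 := by
    have h6 := hasStrictFDerivAt_ringInverse (𝕜 := ℂ) (1 : Rˣ)
    simp only [inv_one, Units.val_one] at h6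
    exact h6
  have h7 := h5.comp ((1 : R), (0 : R)) (hasStrictFDerivAt_fst (𝕜 := ℂ))
  have h9 : HasStrictFDerivAt (fun p : R × R => 1 + p.2) (ContinuousLinearMap.snd ℂ R R)
      ((1 : R), (0 : R)) := (hasStrictFDerivAt_snd (𝕜 := ℂ)).const_add 1
  have h8 := h7.mul' h9
  refine HasStrictFDerivAt.congr_fderiv (f := fun p : R × R =>
    Ring.inverse p.1 * (1 + p.2)) h8 ?_
  ext p <;> simp

end basic

section chart

variable {n : ℕ} {H : Submodule ℂ (V n)} {p p' : E n}

/-- projections onto `H` and onto a complement -/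
structure Prj (H : Submodule ℂ (V n)) (p p' : E n) : Prop where
  add : p + p' = 1
  mem : ∀ x, x ∈ H ↔ p' x = 0
  pp : p * p = p
  ran : ∀ x, p x ∈ H

lemma exists_prj (H : Submodule ℂ (V n)) : ∃ p p' : E n, Prj H p p' := by
  obtain ⟨H', hc⟩ := Submodule.exists_isCompl H
  refine ⟨LinearMap.toContinuousLinearMap (H.subtype ∘ₗ Submodule.projectionOnto H H' hc),
    1 - LinearMap.toContinuousLinearMap (H.subtype ∘ₗ Submodule.projectionOnto H H' hc),
    by abel, ?_, ?_, ?_⟩
  · intro x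
    have h1 : (1 - LinearMap.toContinuousLinearMap
        (H.subtype ∘ₗ Submodule.projectionOnto H H' hc) : E n) x =
        x - (Submodule.projectionOnto H H' hc x : V n) := rfl
    rw [h1, sub_eq_zero]
    constructor
    · intro hx
      rw [Submodule.projectionOnto_apply_of_mem_left hc hx]
    · intro hx
      rw [hx]
      exact (Submodule.projectionOnto H H' hc x).2
  · ext1 x
    change (Submodule.projectionOnto H H' hc (Submodule.projectionOnto H H' hc x : V n) : V n) =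
      (Submodule.projectionOnto H H' hc x : V n)
    rw [Submodule.projectionOnto_apply_left]
  · intro x
    exact (Submodule.projectionOnto H H' hc x).2

lemma Prj.p_apply (h : Prj H p p') {x : V n} (hx : x ∈ H) : p x = x := by
  have h1 : (p + p') x = x := by rw [h.add, one_apply_eq_self]
  have h2 := (h.mem x).1 hx
  rw [add_apply, h2, add_zero] at h1
  exact h1

lemma Prj.p'p (h : Prj H p p') : p' * p = 0 := by
  ext1 x
  exact (h.mem (p x)).1 (h.ran x)

lemma Prj.p'p' (h : Prj H p p') : p' * p' = p' := by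
  have h1 : p' * (p + p') = p' := by rw [h.add, mul_one]
  rw [mul_add, h.p'p, zero_add] at h1
  exact h1

/-- the chart -/
def XX (p p' : E n) : Submodule ℂ (E n) where
  carrier := {X | p' * X * p = X}
  add_mem' := by
    intro a b ha hb
    change p' * (a + b) * p = a + b
    rw [mul_add, add_mul, ha, hb]
  zero_mem' := by
    change p' * 0 * p = 0
    rw [mul_zero, zero_mul]
  smul_mem' := by
    intro c a ha
    change p' * (c • a) * p = c • a
    ext1 x
    have h1 : (p' * a * p) x = a x := by rw [ha]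
    change p' ((c • a) (p x)) = c • a x
    rw [smul_apply, map_smul, ← h1]
    rfl

lemma mem_XX {X : E n} : X ∈ XX p p' ↔ p' * X * p = X := Iff.rfl

/-- the element of the chart of `T` -/
noncomputable def Xf (p p' : E n) (T : E n) : E n :=
  p' * T * p * Ring.inverse (p * T * p + p') * p

lemma Xf_mem (h : Prj H p p') (T : E n) : Xf p p' T ∈ XX p p' := by
  rw [mem_XX, Xf]
  calc p' * (p' * T * p * Ring.inverse (p * T * p + p') * p) * p
      = (p' * p') * T * p * Ring.inverse (p * T * p + p') * (p * p) := by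
        simp only [mul_assoc]
    _ = p' * T * p * Ring.inverse (p * T * p + p') * p := by rw [h.p'p', h.pp]

lemma Xf_im (h : Prj H p p') {T : E n} (hT : IsUnit T) (hM : IsUnit (p * T * p + p'))
    (hX : IsUnit (1 + Xf p p' T)) : im T H = im (1 + Xf p p' T) H := by
  symm
  apply Submodule.eq_of_le_of_finrank_eq
  · rintro y ⟨v, hv, rfl⟩
    have hJ : p' * Ring.inverse (p * T * p + p') = p' := by
      have h1 : p' * (p * T * p + p') = p' := by
        rw [mul_add, ← mul_assoc, ← mul_assoc, h.p'p, h.p'p', zero_mul, zero_mul, zero_add]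
      calc p' * Ring.inverse (p * T * p + p')
          = p' * (p * T * p + p') * Ring.inverse (p * T * p + p') := by rw [h1]
        _ = p' := by rw [mul_assoc, Ring.mul_inverse_cancel _ hM, mul_one]
    have hu : Ring.inverse (p * T * p + p') v ∈ H := by
      rw [h.mem]
      have h2 : (p' * Ring.inverse (p * T * p + p')) v = p' v := by rw [hJ]
      rw [mul_apply_eq_comp] at h2
      rw [h2]
      exact (h.mem v).1 hv
    refine ⟨_, hu, ?_⟩
    change T (Ring.inverse (p * T * p + p') v) = (1 + Xf p p' T) v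
    set u := Ring.inverse (p * T * p + p') v with hudef
    have h3 : (p * T * p + p') u = v := by
      rw [hudef, ← mul_apply_eq_comp, Ring.mul_inverse_cancel _ hM, one_apply_eq_self]
    have h4 : p (T u) = v := by
      have h5 : (p * T * p + p') u = p (T (p u)) + p' u := rfl
      rw [h5, h.p_apply hu, (h.mem u).1 hu, add_zero] at h3
      exact h3
    have h6 : Xf p p' T v = p' (T u) := by
      have h7 : Xf p p' T v = p' (T (p (Ring.inverse (p * T * p + p') (p v)))) := rfl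
      rw [h7, h.p_apply hv, ← hudef, h.p_apply hu]
    have h8 : (p + p') (T u) = T u := by rw [h.add, one_apply_eq_self]
    rw [add_apply, one_apply_eq_self, h6]
    nth_rewrite 1 [← h8]
    rw [add_apply, h4]
  · rw [finrank_im hT, finrank_im hX]

lemma finrank_XX (h : Prj H p p') :
    finrank ℂ ↥H * (n - finrank ℂ ↥H) ≤ finrank ℂ ↥(XX p p') := by
  let K : Submodule ℂ (V n) := LinearMap.ker (p : V n →ₗ[ℂ] V n)
  let q : V n →ₗ[ℂ] ↥H := LinearMap.codRestrict H (p : V n →ₗ[ℂ] V n) h.ran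
  have hq : ∀ x : V n, (q x : V n) = p x := fun x => rfl
  have hqH : ∀ x : ↥H, q (x : V n) = x := fun x => Subtype.ext (h.p_apply x.2)
  have hqp : ∀ x : V n, q (p x) = q x := by
    intro x
    apply Subtype.ext
    rw [hq, hq, ← mul_apply_eq_comp, h.pp]
  have hK : ∀ x ∈ K, p' x = x := by
    intro x hx
    have h1 : (p + p') x = x := by rw [h.add, one_apply_eq_self]
    have h2 : p x = 0 := hx
    rw [add_apply, h2, zero_add] at h1
    exact h1
  have hrange : LinearMap.range (p : V n →ₗ[ℂ] V n) = H := by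
    ext x
    constructor
    · rintro ⟨y, rfl⟩
      exact h.ran y
    · intro hx
      exact ⟨x, h.p_apply hx⟩
  have hfr : finrank ℂ ↥K = n - finrank ℂ ↥H := by
    have h1 := LinearMap.finrank_range_add_finrank_ker (p : V n →ₗ[ℂ] V n)
    rw [hrange, show finrank ℂ (V n) = n by simp] at h1
    change finrank ℂ ↥H + finrank ℂ ↥K = n at h1
    omega
  have hmem : ∀ ψ : ↥H →ₗ[ℂ] ↥K,
      LinearMap.toContinuousLinearMap (K.subtype ∘ₗ ψ ∘ₗ q) ∈ XX p p' := by
    intro ψ
    rw [mem_XX]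
    ext1 x
    change p' (ψ (q (p x)) : V n) = (ψ (q x) : V n)
    rw [hqp, hK _ (ψ (q x)).2]
  let Ψ : (↥H →ₗ[ℂ] ↥K) →ₗ[ℂ] ↥(XX p p') :=
    { toFun := fun ψ => ⟨LinearMap.toContinuousLinearMap (K.subtype ∘ₗ ψ ∘ₗ q), hmem ψ⟩
      map_add' := by
        intro a b
        apply Subtype.ext
        ext1 x
        rfl
      map_smul' := by
        intro c a
        apply Subtype.ext
        ext1 x
        rfl }
  have hinj : Function.Injective Ψ := by
    rw [injective_iff_map_eq_zero]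
    intro ψ hψ
    ext1 x
    have h1 : ((Ψ ψ : ↥(XX p p')) : E n) (x : V n) = 0 := by rw [hψ]; rfl
    have h2 : ((Ψ ψ : ↥(XX p p')) : E n) (x : V n) = (ψ (q (x : V n)) : V n) := rfl
    rw [h2, hqH] at h1
    exact Subtype.ext h1
  have h3 := LinearMap.finrank_le_finrank_of_injective hinj
  rw [Module.finrank_linearMap, hfr] at h3
  exact h3

end chart

section ift

lemma ift {R : Type*} [NormedRing R] [NormedAlgebra ℂ R] [FiniteDimensional ℂ R] {m : ℕ}
    (X : Submodule ℂ R) {r : Fin m → ℕ} (G : ∀ l, R → (Fin (r l) → ℂ))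
    (G' : ∀ l, R →L[ℂ] (Fin (r l) → ℂ)) (hG : ∀ l, HasStrictFDerivAt (G l) (G' l) 1)
    (hG0 : ∀ l, G l 1 = 0) (hinj : ∀ x ∈ X, (∀ l, G' l x = 0) → x = 0)
    (hdim : ∑ l, r l ≤ finrank ℂ X) :
    finrank ℂ X ≤ ∑ l, r l ∧ ∃ ξ : (Fin m → R) → X, Tendsto ξ (𝓝 1) (𝓝 0) ∧
      (∀ᶠ g in 𝓝 (1 : Fin m → R), ∀ l, G l (Ring.inverse (g l) * (1 + (ξ g : R))) = 0) ∧
      ∀ᶠ q in 𝓝 ((1, 0) : (Fin m → R) × X),
        (∀ l, G l (Ring.inverse (q.1 l) * (1 + (q.2 : R))) = 0) → q.2 = ξ q.1 := by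
  have : CompleteSpace R := FiniteDimensional.complete ℂ R
  have : CompleteSpace X := FiniteDimensional.complete ℂ X
  let J : ∀ l : Fin m, (Fin m → R) × X →L[ℂ] R × R := fun l =>
    ((ContinuousLinearMap.proj l).comp (ContinuousLinearMap.fst ℂ (Fin m → R) X)).prod
      (X.subtypeL.comp (ContinuousLinearMap.snd ℂ (Fin m → R) X))
  have h1 : ∀ l, HasStrictFDerivAt
      (fun q : (Fin m → R) × X => G l (Ring.inverse (q.1 l) * (1 + (q.2 : R))))
      ((G' l).comp ((-ContinuousLinearMap.fst ℂ R R + ContinuousLinearMap.snd ℂ R R).comp (J l)))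
      (1, 0) := by
    intro l
    have h2 : HasStrictFDerivAt (fun q : (Fin m → R) × X =>
        Ring.inverse (q.1 l) * (1 + (q.2 : R)))
        ((-ContinuousLinearMap.fst ℂ R R + ContinuousLinearMap.snd ℂ R R).comp (J l)) (1, 0) :=
      HasStrictFDerivAt.comp (g := fun p : R × R => Ring.inverse p.1 * (1 + p.2))
        ((1, 0) : (Fin m → R) × X) inv_mul_deriv (J l).hasStrictFDerivAt
    have h3 : Ring.inverse (((1, 0) : (Fin m → R) × X).1 l) *
        (1 + ((((1, 0) : (Fin m → R) × X).2 : X) : R)) = 1 := by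
      simp
    have h4 : HasStrictFDerivAt (G l) (G' l) (Ring.inverse (((1, 0) : (Fin m → R) × X).1 l) *
        (1 + ((((1, 0) : (Fin m → R) × X).2 : X) : R))) := by
      rw [h3]
      exact hG l
    exact h4.comp ((1, 0) : (Fin m → R) × X) h2
  have h5 := hasStrictFDerivAt_pi.2 h1
  set Φ : (Fin m → R) × X → (∀ l, Fin (r l) → ℂ) :=
    fun q l => G l (Ring.inverse (q.1 l) * (1 + (q.2 : R))) with hΦ
  set Φ' : (Fin m → R) × X →L[ℂ] (∀ l, Fin (r l) → ℂ) := ContinuousLinearMap.pi fun l =>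
    ((G' l).comp ((-ContinuousLinearMap.fst ℂ R R + ContinuousLinearMap.snd ℂ R R).comp (J l)))
    with hΦ'
  have h6 : HasStrictFDerivAt Φ Φ' (1, 0) := h5
  have h7 : Function.Injective (Φ'.comp (ContinuousLinearMap.inr ℂ (Fin m → R) X)) := by
    rw [injective_iff_map_eq_zero]
    intro x hx
    apply Subtype.ext
    refine hinj x x.2 fun l => ?_
    have h8 := congrFun hx l
    simpa [Φ', J] using h8
  have hfr : finrank ℂ X = finrank ℂ (∀ l, Fin (r l) → ℂ) := by
    apply le_antisymm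
    · exact LinearMap.finrank_le_finrank_of_injective
        (f := ((Φ'.comp (ContinuousLinearMap.inr ℂ (Fin m → R) X)) :
          X →ₗ[ℂ] (∀ l, Fin (r l) → ℂ))) h7
    · rw [Module.finrank_pi_fintype]
      simpa using hdim
  have h9 : (Φ'.comp (ContinuousLinearMap.inr ℂ (Fin m → R) X)).IsInvertible := by
    refine ⟨(LinearEquiv.ofInjectiveOfFinrankEq
      ((Φ'.comp (ContinuousLinearMap.inr ℂ (Fin m → R) X)) :
        X →ₗ[ℂ] (∀ l, Fin (r l) → ℂ)) h7 hfr).toContinuousLinearEquiv, ?_⟩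
    ext1 x
    rfl
  have h0 : Φ (1, 0) = 0 := by
    funext l
    simp [Φ, hG0]
  refine ⟨?_, h6.implicitFunctionOfProdDomain h9, h6.tendsto_implicitFunctionOfProdDomain h9,
    ?_, ?_⟩
  · rw [hfr, Module.finrank_pi_fintype]
    simp
  · filter_upwards [h6.eventually_apply_implicitFunctionOfProdDomain h9] with g hg l
    rw [h0] at hg
    exact congrFun hg l
  · filter_upwards [h6.eventually_apply_eq_iff_implicitFunctionOfProdDomain h9] with q hq hql
    rw [h0] at hq
    exact (hq.1 (funext hql)).symm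

lemma inv_tendsto {R : Type*} [NormedRing R] [NormedAlgebra ℂ R] [CompleteSpace R] {m : ℕ}
    (X : Submodule ℂ R) (l : Fin m) :
    Tendsto (fun q : (Fin m → R) × X => Ring.inverse (q.1 l) * (1 + (q.2 : R)))
      (𝓝 (1, 0)) (𝓝 1) := by
  have h1 := (inv_mul_deriv (R := R)).continuousAt
  have h2 : Tendsto (fun q : (Fin m → R) × X => ((q.1 l, (q.2 : R)) : R × R)) (𝓝 (1, 0))
      (𝓝 ((1 : R), (0 : R))) := by
    have h3 : Continuous (fun q : (Fin m → R) × X => ((q.1 l, (q.2 : R)) : R × R)) := by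
      fun_prop
    exact h3.tendsto' _ _ rfl
  have h4 := h1.tendsto.comp h2
  have h5 : Ring.inverse ((1 : R), (0 : R)).1 * (1 + ((1 : R), (0 : R)).2) = 1 := by simp
  rw [h5] at h4
  exact h4

lemma Xf_aux {R : Type*} [NormedRing R] [CompleteSpace R] {p p' : R} (h1 : p + p' = 1)
    (h2 : p' * p = 0) (h3 : p * p = p) :
    Tendsto (fun T => p' * T * p * Ring.inverse (p * T * p + p') * p) (𝓝 1) (𝓝 0) ∧
      Tendsto (fun T => p * T * p + p') (𝓝 1) (𝓝 1) := by
  have h4 : Tendsto (fun T => p * T * p + p') (𝓝 1) (𝓝 1) := by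
    have h5 : Continuous (fun T => p * T * p + p') := by fun_prop
    exact h5.tendsto' _ _ (by rw [mul_one, h3, h1])
  have h6 : Tendsto (fun T => Ring.inverse (p * T * p + p')) (𝓝 1) (𝓝 1) := by
    have h7 := (NormedRing.inverse_continuousAt (1 : Rˣ)).tendsto
    simp only [Units.val_one, Ring.inverse_one] at h7
    exact h7.comp h4
  have h8 : Tendsto (fun T => p' * T * p) (𝓝 1) (𝓝 0) := by
    have h5 : Continuous (fun T => p' * T * p) := by fun_prop
    exact h5.tendsto' _ _ (by rw [mul_one, h2])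
  refine ⟨?_, h4⟩
  have h9 := (h8.mul h6).mul (tendsto_const_nhds (x := p))
  rw [zero_mul, zero_mul] at h9
  exact h9

end ift

theorem iso {k n m : ℕ} (hkn : k ≤ n) {lam : Fin m → Fin k → ℕ} (hlam : IsProblem k n m lam)
    {F : Fin m → ℕ → Submodule ℂ (V n)} (hF : ∀ l, IsFlag n (F l)) {H : Submodule ℂ (V n)}
    (hH : H ∈ ⋂ l, schub k n (lam l) (F l))
    (htr : ∀ φ : ↥H →ₗ[ℂ] (Fin n → ℂ) ⧸ H, (∀ l, TangentTo k n (lam l) (F l) H φ) → φ = 0) :
    ∃ Ts : (Fin m → E n) → E n, Tendsto Ts (𝓝 1) (𝓝 1) ∧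
      (∀ᶠ g in 𝓝 (1 : Fin m → E n), im (Ts g) H ∈ Inter k n m lam F g) ∧
      (∀ᶠ p in 𝓝 ((1, 1) : (Fin m → E n) × E n), im p.2 H ∈ Inter k n m lam F p.1 →
        im p.2 H = im (Ts p.1) H) := by
  classical
  have hHl : ∀ l, H ∈ schub k n (lam l) (F l) := fun l => Set.mem_iInter.1 hH l
  obtain ⟨p, p', hP⟩ := exists_prj H
  choose r G G' hr hG hG0 htan hloc using
    fun l => loc_str hkn (hlam.anti l) (hlam.le l) (hF l) (hHl l)
  have hinj : ∀ x ∈ XX p p', (∀ l, G' l x = 0) → x = 0 := by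
    intro x hx h0
    have h1 := htr (H.mkQ ∘ₗ (x : V n →ₗ[ℂ] V n) ∘ₗ H.subtype) (fun l => htan l x (h0 l))
    ext1 v
    have h2 : (p' * x * p) v = x v := by rw [mem_XX.1 hx]
    have h3 : x (p v) ∈ H := by
      have h4 : (H.mkQ ∘ₗ (x : V n →ₗ[ℂ] V n) ∘ₗ H.subtype) ⟨p v, hP.ran v⟩ = 0 := by
        rw [h1]
        rfl
      have h5 : H.mkQ (x (p v)) = 0 := h4
      simpa [Submodule.Quotient.mk_eq_zero] using h5
    rw [← h2]
    exact (hP.mem _).1 h3
  have hsum : k * (n - k) ≤ finrank ℂ ↥(XX p p') := by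
    rcases Nat.eq_zero_or_pos m with rfl | hm
    · have h1 := hlam.sum
      simp only [Finset.univ_eq_empty, Finset.sum_empty] at h1
      omega
    · have h1 := finrank_XX hP
      rw [(hHl ⟨0, hm⟩).1] at h1
      exact h1
  have hrle : ∑ l, r l ≤ k * (n - k) := by
    rw [← hlam.sum]
    exact Finset.sum_le_sum fun l _ => hr l
  obtain ⟨hfr, ξ, hξ, hξ0, hξu⟩ := ift (XX p p') G G' hG hG0 hinj (hrle.trans hsum)
  have hreq : ∀ l, r l = ∑ i, lam l i := by
    have h1 : ∑ l, r l = ∑ l, ∑ i, lam l i := by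
      apply le_antisymm
      · exact Finset.sum_le_sum fun l _ => hr l
      · rw [hlam.sum]
        exact hsum.trans hfr
    intro l
    exact (Finset.sum_eq_sum_iff_of_le fun l _ => hr l).1 h1 l (Finset.mem_univ l)
  have hev : ∀ᶠ q in 𝓝 ((1, 0) : (Fin m → E n) × ↥(XX p p')),
      (im (1 + (q.2 : E n)) H ∈ Inter k n m lam F q.1 ↔
        ∀ l, G l (Ring.inverse (q.1 l) * (1 + (q.2 : E n))) = 0) := by
    have h1 : ∀ᶠ q in 𝓝 ((1, 0) : (Fin m → E n) × ↥(XX p p')), ∀ l,
        (im (Ring.inverse (q.1 l) * (1 + (q.2 : E n))) H ∈ schub k n (lam l) (F l) ↔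
          G l (Ring.inverse (q.1 l) * (1 + (q.2 : E n))) = 0) :=
      eventually_all.2 fun l => (inv_tendsto (XX p p') l).eventually (hloc l (hreq l))
    have h2 : ∀ᶠ q in 𝓝 ((1, 0) : (Fin m → E n) × ↥(XX p p')), ∀ l, IsUnit (q.1 l) := by
      refine eventually_all.2 fun l => ?_
      have h3 : Continuous (fun q : (Fin m → E n) × ↥(XX p p') => q.1 l) := by fun_prop
      exact (h3.tendsto' _ (1 : E n) rfl).eventually ev_unit'
    filter_upwards [h1, h2] with q hq1 hq2
    rw [Inter, Set.mem_iInter]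
    refine forall_congr' fun l => ?_
    rw [← hq1 l, ← schub_im (F := F l) (hq2 l), ← im_mul, ← mul_assoc,
      Ring.mul_inverse_cancel _ (hq2 l), one_mul]
  refine ⟨fun g => 1 + (ξ g : E n), ?_, ?_, ?_⟩
  · have h1 : Continuous (fun x : ↥(XX p p') => (1 : E n) + (x : E n)) := by fun_prop
    exact (h1.tendsto' 0 1 (by simp)).comp hξ
  · have h1 : Tendsto (fun g : Fin m → E n => ((g, ξ g) : (Fin m → E n) × ↥(XX p p'))) (𝓝 1)
        (𝓝 (1, 0)) := by
      rw [nhds_prod_eq]
      exact tendsto_id.prodMk hξ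
    filter_upwards [h1.eventually hev, hξ0] with g hg1 hg2
    exact hg1.2 hg2
  · obtain ⟨h1, h2⟩ := Xf_aux hP.add hP.p'p hP.pp
    have h3 : Tendsto (fun T : E n => (⟨Xf p p' T, Xf_mem hP T⟩ : ↥(XX p p'))) (𝓝 1) (𝓝 0) := by
      rw [tendsto_subtype_rng]
      exact h1
    have h4 : Tendsto (fun q : (Fin m → E n) × E n =>
        ((q.1, ⟨Xf p p' q.2, Xf_mem hP q.2⟩) : (Fin m → E n) × ↥(XX p p'))) (𝓝 (1, 1))
        (𝓝 (1, 0)) := by
      rw [nhds_prod_eq, nhds_prod_eq]
      exact tendsto_fst.prodMk (h3.comp tendsto_snd)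
    have h5 : Tendsto (fun q : (Fin m → E n) × E n => q.2) (𝓝 (1, 1)) (𝓝 1) :=
      continuous_snd.tendsto' _ _ rfl
    have h6 : ∀ᶠ T : E n in 𝓝 1, IsUnit (p * T * p + p') := h2.eventually ev_unit'
    have h7 : ∀ᶠ T : E n in 𝓝 1, IsUnit (1 + Xf p p' T) := by
      have h8 : Tendsto (fun T : E n => 1 + Xf p p' T) (𝓝 1) (𝓝 1) := by
        have h9 := (tendsto_const_nhds (x := (1 : E n))).add h1
        rw [add_zero] at h9
        exact h9
      exact h8.eventually ev_unit'
    filter_upwards [h4.eventually hev, h4.eventually hξu, h5.eventually h6, h5.eventually h7,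
      h5.eventually ev_unit'] with q hq1 hq2 hq3 hq4 hq5 hmem
    rw [Xf_im hP hq5 hq3 hq4] at hmem ⊢
    rw [← hq2 (hq1.1 hmem)]

end Pool.CTG
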