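import Pool.Agent.CTG.Defs

/-! Row LOC. Local equations of a Schubert variety. -/

namespace Pool.CTG

open Module Pool.CSC Filter Topology

section adapted

variable {n : ℕ}

/-- the span of the first `d` vectors -/
def sp (h : ℕ → V n) (d : ℕ) : Submodule ℂ (V n) := Submodule.span ℂ {v | ∃ j, j < d ∧ v = h j}

lemma sp_congr {h h' : ℕ → V n} {d : ℕ} (H : ∀ j < d, h j = h' j) : sp h d = sp h' d := by
  rw [sp, sp]
  congr 1
  ext v
  constructor
  · rintro ⟨j, hj, rfl⟩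
    exact ⟨j, hj, H j hj⟩
  · rintro ⟨j, hj, rfl⟩
    exact ⟨j, hj, (H j hj).symm⟩

lemma sp_zero (h : ℕ → V n) : sp h 0 = ⊥ := by
  rw [sp, Submodule.span_eq_bot]
  rintro v ⟨j, hj, -⟩
  omega

lemma sp_succ (h : ℕ → V n) (d : ℕ) : sp h (d + 1) = sp h d ⊔ Submodule.span ℂ {h d} := by
  rw [sp, sp, ← Submodule.span_union]
  congr 1
  ext v
  constructor
  · rintro ⟨j, hj, rfl⟩
    rcases Nat.lt_succ_iff_lt_or_eq.1 hj with h1 | rfl
    · exact Or.inl ⟨j, h1, rfl⟩
    · exact Or.inr rfl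
  · rintro (⟨j, hj, rfl⟩ | h1)
    · exact ⟨j, by omega, rfl⟩
    · exact ⟨d, by omega, h1⟩

lemma exists_adapted {F : ℕ → Submodule ℂ (V n)} (hF : IsFlag n F) (H : Submodule ℂ (V n)) :
    ∃ h : ℕ → V n, ∀ t ≤ n, H ⊓ F t = sp h (finrank ℂ ↥(H ⊓ F t)) := by
  suffices key : ∀ t ≤ n, ∃ h : ℕ → V n, ∀ s ≤ t, H ⊓ F s = sp h (finrank ℂ ↥(H ⊓ F s)) from
    key n le_rfl
  intro t
  induction t with
  | zero =>
    intro _
    refine ⟨fun _ => 0, fun s hs => ?_⟩
    obtain rfl : s = 0 := by omega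
    have h0 : F 0 = ⊥ := Submodule.finrank_eq_zero.1 (hF.dim 0 (Nat.zero_le _))
    rw [h0, inf_bot_eq, finrank_bot, sp_zero]
  | succ t ih =>
    intro ht
    obtain ⟨h, hh⟩ := ih (by omega)
    have hmono : H ⊓ F t ≤ H ⊓ F (t + 1) := inf_le_inf_left _ (hF.mono t (t + 1) (by omega) ht)
    have hjump : finrank ℂ ↥(H ⊓ F (t + 1)) ≤ finrank ℂ ↥(H ⊓ F t) + 1 := by
      have h1 := finrank_inf_ge' (H ⊓ F (t + 1)) (F t) (F (t + 1)) inf_le_right
        (hF.mono t (t + 1) (by omega) ht)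
      rw [hF.dim t (by omega), hF.dim (t + 1) ht] at h1
      have h2 : finrank ℂ ↥(H ⊓ F (t + 1) ⊓ F t) ≤ finrank ℂ ↥(H ⊓ F t) :=
        Submodule.finrank_mono (inf_le_inf_right _ inf_le_left)
      omega
    have hle := Submodule.finrank_mono hmono
    rcases Nat.eq_or_lt_of_le hle with heq | hlt
    · refine ⟨h, fun s hs => ?_⟩
      rcases Nat.lt_or_ge s (t + 1) with h1 | h1
      · exact hh s (by omega)
      · obtain rfl : s = t + 1 := by omega
        have h2 : H ⊓ F t = H ⊓ F (t + 1) := Submodule.eq_of_le_of_finrank_eq hmono heq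
        rw [← h2]
        exact hh t le_rfl
    · have heq : finrank ℂ ↥(H ⊓ F (t + 1)) = finrank ℂ ↥(H ⊓ F t) + 1 := by omega
      obtain ⟨v, hv, hv'⟩ : ∃ v ∈ H ⊓ F (t + 1), v ∉ H ⊓ F t := by
        by_contra hc
        push Not at hc
        have h3 : H ⊓ F (t + 1) ≤ H ⊓ F t := hc
        have h4 := Submodule.finrank_mono h3
        omega
      refine ⟨Function.update h (finrank ℂ ↥(H ⊓ F t)) v, fun s hs => ?_⟩
      rcases Nat.lt_or_ge s (t + 1) with h1 | h1
      · rw [sp_congr (h' := h)]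
        · exact hh s (by omega)
        · intro j hj
          have h5 : finrank ℂ ↥(H ⊓ F s) ≤ finrank ℂ ↥(H ⊓ F t) :=
            Submodule.finrank_mono (inf_le_inf_left _ (hF.mono s t (by omega) (by omega)))
          rw [Function.update_of_ne (by omega)]
      · obtain rfl : s = t + 1 := by omega
        rw [heq, sp_succ, Function.update_self, sp_congr (h' := h), ← hh t le_rfl]
        · symm
          apply Submodule.eq_of_le_of_finrank_le
          · refine sup_le hmono ?_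
            rw [Submodule.span_le, Set.singleton_subset_iff]
            exact hv
          · have h6 : H ⊓ F t < H ⊓ F t ⊔ Submodule.span ℂ {v} := by
              refine lt_of_le_of_ne le_sup_left fun he => hv' ?_
              rw [he]
              exact Submodule.mem_sup_right (Submodule.mem_span_singleton_self v)
            have h7 := Submodule.finrank_lt_finrank_of_lt h6
            omega
        · intro j hj
          rw [Function.update_of_ne (by omega)]

lemma sp_add (h : ℕ → V n) (a b : ℕ) : sp h (a + b) = sp h a ⊔ sp (fun j => h (a + j)) b := by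
  induction b with
  | zero => rw [sp_zero, sup_bot_eq, add_zero]
  | succ b ih => rw [← add_assoc, sp_succ, ih, sp_succ, sup_assoc]

lemma finrank_sp_le (h : ℕ → V n) (d : ℕ) : finrank ℂ ↥(sp h d) ≤ d := by
  induction d with
  | zero => rw [sp_zero, finrank_bot]
  | succ d ih =>
    rw [sp_succ]
    have h1 := Submodule.finrank_add_le_finrank_add_finrank (sp h d) (Submodule.span ℂ {h d})
    have h2 : finrank ℂ ↥(Submodule.span ℂ {h d}) ≤ 1 := by
      have h3 := finrank_span_finset_le_card (R := ℂ) ({h d} : Finset (V n))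
      rw [Finset.coe_singleton, Finset.card_singleton] at h3
      exact h3
    omega

lemma sp_split {h : ℕ → V n} {a b : ℕ} (hk : finrank ℂ ↥(sp h (a + b)) = a + b) :
    finrank ℂ ↥(sp (fun j => h (a + j)) b) = b ∧ sp h a ⊓ sp (fun j => h (a + j)) b = ⊥ := by
  have h1 := Submodule.finrank_sup_add_finrank_inf_eq (sp h a) (sp (fun j => h (a + j)) b)
  rw [← sp_add, hk] at h1
  have h2 := finrank_sp_le h a
  have h3 := finrank_sp_le (fun j => h (a + j)) b
  refine ⟨by omega, Submodule.finrank_eq_zero.1 (by omega)⟩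

end adapted

section data

variable {n : ℕ}

lemma exists_data {F₀ C : Submodule ℂ (V n)} (hdis : F₀ ⊓ C = ⊥) {q : ℕ}
    (hq : finrank ℂ ↥(F₀ ⊔ C) + q = n) :
    ∃ (δ : V n →L[ℂ] (Fin q → ℂ)) (ρ : E n), (∀ x, δ x = 0 ↔ x ∈ F₀ ⊔ C) ∧
      (∀ x ∈ F₀, ρ x = 0) ∧ (∀ x ∈ C, ρ x = x) := by
  have h1 : finrank ℂ (V n ⧸ (F₀ ⊔ C)) = finrank ℂ (Fin q → ℂ) := by
    have h2 := Submodule.finrank_quotient_add_finrank (F₀ ⊔ C)
    have h3 : finrank ℂ (V n) = n := by simp
    rw [h3] at h2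
    rw [Module.finrank_fin_fun]
    omega
  let e : (V n ⧸ (F₀ ⊔ C)) ≃ₗ[ℂ] (Fin q → ℂ) := LinearEquiv.ofFinrankEq _ _ h1
  let f : ↥C →ₗ[ℂ] V n ⧸ F₀ := F₀.mkQ ∘ₗ C.subtype
  have hf : LinearMap.ker f = ⊥ := by
    rw [LinearMap.ker_eq_bot']
    intro x hx
    have h4 : (x : V n) ∈ F₀ := by
      simpa [f, Submodule.Quotient.mk_eq_zero] using hx
    have h5 : (x : V n) ∈ F₀ ⊓ C := ⟨h4, x.2⟩
    rw [hdis, Submodule.mem_bot] at h5
    exact Subtype.ext h5
  obtain ⟨g, hg⟩ := LinearMap.exists_leftInverse_of_injective f hf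
  refine ⟨LinearMap.toContinuousLinearMap (e.toLinearMap ∘ₗ (F₀ ⊔ C).mkQ),
    LinearMap.toContinuousLinearMap (C.subtype ∘ₗ g ∘ₗ F₀.mkQ), ?_, ?_, ?_⟩
  · intro x
    simp [Submodule.Quotient.mk_eq_zero]
  · intro x hx
    have h6 : F₀.mkQ x = 0 := by simpa [Submodule.Quotient.mk_eq_zero] using hx
    simp only [LinearMap.coe_toContinuousLinearMap', LinearMap.comp_apply, h6, map_zero]
  · intro x hx
    have h7 : g (f ⟨x, hx⟩) = ⟨x, hx⟩ := by
      rw [← LinearMap.comp_apply, hg, LinearMap.id_apply]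
    have h8 : f ⟨x, hx⟩ = F₀.mkQ x := rfl
    rw [h8] at h7
    simp only [LinearMap.coe_toContinuousLinearMap', LinearMap.comp_apply, h7]
    rfl

lemma mem_im {T : E n} {H : Submodule ℂ (V n)} {x : V n} : x ∈ im T H ↔ ∃ y ∈ H, T y = x :=
  Iff.rfl

lemma inverse_mem {M : E n} (hM : IsUnit M) {Y : Submodule ℂ (V n)} {x : V n} :
    Ring.inverse M x ∈ Y ↔ x ∈ im M Y := by
  have h1 : ∀ y, Ring.inverse M (M y) = y := by
    intro y
    have := Ring.inverse_mul_cancel M hM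
    rw [← mul_apply_eq_comp, this, one_apply_eq_self]
  have h2 : ∀ y, M (Ring.inverse M y) = y := by
    intro y
    have := Ring.mul_inverse_cancel M hM
    rw [← mul_apply_eq_comp, this, one_apply_eq_self]
  constructor
  · intro h
    exact ⟨_, h, h2 x⟩
  · rintro ⟨y, hy, rfl⟩
    change Ring.inverse M (M y) ∈ Y
    rw [h1]
    exact hy

lemma im_M {T ρ : E n} {F₀ C : Submodule ℂ (V n)} (hF : ∀ x ∈ F₀, ρ x = 0)
    (hC : ∀ x ∈ C, ρ x = x) : im (1 + (T - 1) * ρ) (F₀ ⊔ C) = F₀ ⊔ im T C := by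
  have e1 : ∀ x ∈ F₀, (1 + (T - 1) * ρ) x = x := by
    intro x hx
    simp [hF x hx]
  have e2 : ∀ x ∈ C, (1 + (T - 1) * ρ) x = T x := by
    intro x hx
    simp [hC x hx]
  rw [im, Submodule.map_sup]
  congr 1
  · ext y
    constructor
    · rintro ⟨x, hx, rfl⟩
      change (1 + (T - 1) * ρ) x ∈ F₀
      rw [e1 x hx]
      exact hx
    · intro hy
      exact ⟨y, hy, e1 y hy⟩
  · ext y
    constructor
    · rintro ⟨x, hx, rfl⟩
      exact ⟨x, hx, (e2 x hx).symm⟩
    · rintro ⟨x, hx, rfl⟩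
      exact ⟨x, hx, e2 x hx⟩

lemma finrank_im {M : E n} (hM : IsUnit M) (Y : Submodule ℂ (V n)) :
    finrank ℂ ↥(im M Y) = finrank ℂ ↥Y := by
  have h1 : Function.Injective (M : V n →ₗ[ℂ] V n) := by
    intro x y hxy
    have h2 : ∀ y, Ring.inverse M (M y) = y := by
      intro y
      have := Ring.inverse_mul_cancel M hM
      rw [← mul_apply_eq_comp, this, one_apply_eq_self]
    rw [← h2 x, ← h2 y]
    have h3 : M x = M y := hxy
    rw [h3]
  exact (Submodule.equivMapOfInjective _ h1 Y).finrank_eq.symm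

/-- the local equation -/
noncomputable def GG {q : ℕ} (δ : V n →L[ℂ] (Fin q → ℂ)) (ρ : E n) (v : V n) (T : E n) :
    Fin q → ℂ := δ (Ring.inverse (1 + (T - 1) * ρ) (T v))

lemma inv_deriv {R : Type*} [NormedRing R] [NormedAlgebra ℂ R] [HasSummableGeomSeries R] (ρ : R) :
    HasStrictFDerivAt (fun T : R => Ring.inverse (1 + (T - 1) * ρ) * T)
      (ContinuousLinearMap.id ℂ R - (ContinuousLinearMap.mul ℂ R).flip ρ) 1 := by
  have h1 : HasStrictFDerivAt (fun T : R => 1 + (T - 1) * ρ)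
      ((ContinuousLinearMap.mul ℂ R).flip ρ) 1 := by
    have h2 : HasStrictFDerivAt (fun T : R => (T - 1) * ρ)
        ((ContinuousLinearMap.mul ℂ R).flip ρ) 1 := by
      have h3 := ((ContinuousLinearMap.mul ℂ R).flip ρ).hasStrictFDerivAt (x := (1 : R))
      have h4 := h3.sub_const (((ContinuousLinearMap.mul ℂ R).flip ρ) 1)
      refine h4.congr_of_eventuallyEq (Eventually.of_forall fun T => ?_)
      simp [sub_mul]
    exact h2.const_add 1
  have h5 : HasStrictFDerivAt (Ring.inverse : R → R)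
      (-ContinuousLinearMap.mulLeftRight ℂ R 1 1) (1 + ((1 : R) - 1) * ρ) := by
    have h6 := hasStrictFDerivAt_ringInverse (𝕜 := ℂ) (1 : Rˣ)
    simp only [inv_one, Units.val_one] at h6
    rw [sub_self, zero_mul, add_zero]
    exact h6
  have h7 := h5.comp (1 : R) h1
  have h8 := h7.mul' (hasStrictFDerivAt_id (1 : R))
  refine HasStrictFDerivAt.congr_fderiv (f := fun T : R =>
    Ring.inverse (1 + (T - 1) * ρ) * T) h8 ?_
  ext1 T
  simp [sub_eq_add_neg]

lemma GG_deriv_aux {W Q : Type*} [NormedAddCommGroup W] [NormedSpace ℂ W] [CompleteSpace W]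
    [NormedAddCommGroup Q] [NormedSpace ℂ Q] (δ : W →L[ℂ] Q) {ρ : W →L[ℂ] W} {v : W}
    (hv : ρ v = 0) :
    HasStrictFDerivAt (fun T : W →L[ℂ] W => δ (Ring.inverse (1 + (T - 1) * ρ) (T v)))
      (δ.comp (ContinuousLinearMap.apply ℂ W v)) 1 := by
  have h8 := inv_deriv ρ
  have h9 := (δ.comp (ContinuousLinearMap.apply ℂ W v)).hasStrictFDerivAt.comp
    (1 : W →L[ℂ] W) h8
  refine HasStrictFDerivAt.congr_fderiv (f := fun T : W →L[ℂ] W =>
    δ (Ring.inverse (1 + (T - 1) * ρ) (T v))) h9 ?_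
  ext1 T
  simp [hv]

lemma GG_deriv {q : ℕ} (δ : V n →L[ℂ] (Fin q → ℂ)) {ρ : E n} {v : V n} (hv : ρ v = 0) :
    HasStrictFDerivAt (GG δ ρ v) (δ.comp (ContinuousLinearMap.apply ℂ (V n) v)) 1 :=
  GG_deriv_aux δ hv

lemma GG_one {q : ℕ} (δ : V n →L[ℂ] (Fin q → ℂ)) (ρ : E n) (v : V n) :
    GG δ ρ v 1 = δ v := by
  simp [GG]

lemma ev_unit (ρ : E n) : ∀ᶠ T : E n in 𝓝 1, IsUnit (1 + (T - 1) * ρ) := by
  have h1 : Continuous fun T : E n => 1 + (T - 1) * ρ := by fun_prop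
  have h2 : IsOpen {x : E n | IsUnit x} := Units.isOpen
  have h3 := (h2.preimage h1).mem_nhds (x := (1 : E n)) (by simp)
  exact h3

lemma ev_unit' : ∀ᶠ T : E n in 𝓝 1, IsUnit T := by
  have h2 : IsOpen {x : E n | IsUnit x} := Units.isOpen
  exact h2.mem_nhds (x := (1 : E n)) (by simp)

end data

section main

variable {k n : ℕ} {lam : Fin k → ℕ} {F : ℕ → Submodule ℂ (V n)} {H : Submodule ℂ (V n)}
  {h : ℕ → V n}

/-- the complement of `sp h (i + 1)` in `sp h k` -/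
def Cc (k : ℕ) (h : ℕ → V n) (i : ℕ) : Submodule ℂ (V n) :=
  sp (fun j => h (i + 1 + j)) (k - (i + 1))

lemma mem_sp (h : ℕ → V n) {j d : ℕ} (hj : j < d) : h j ∈ sp h d :=
  Submodule.subset_span ⟨j, hj, rfl⟩

lemma mem_Cc {i j : ℕ} (hij : i < j) (hjk : j < k) : h j ∈ Cc k h i := by
  have h1 := mem_sp (fun j => h (i + 1 + j)) (j := j - (i + 1)) (d := k - (i + 1)) (by omega)
  simp only [show i + 1 + (j - (i + 1)) = j by omega] at h1
  exact h1

lemma Cc_le_iff {i : ℕ} {Y : Submodule ℂ (V n)} {T : E n} :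
    im T (Cc k h i) ≤ Y ↔ ∀ j, i < j → j < k → T (h j) ∈ Y := by
  constructor
  · intro h1 j hj hk
    exact h1 ⟨h j, mem_Cc hj hk, rfl⟩
  · intro h1
    rw [im, Submodule.map_le_iff_le_comap, Cc, sp, Submodule.span_le]
    rintro v ⟨j, hj, rfl⟩
    exact h1 _ (by omega) (by omega)

lemma im_sp_le_iff {d : ℕ} {Y : Submodule ℂ (V n)} {T : E n} :
    im T (sp h d) ≤ Y ↔ ∀ j < d, T (h j) ∈ Y := by
  constructor
  · intro h1 j hj
    exact h1 ⟨h j, mem_sp h hj, rfl⟩
  · intro h1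
    rw [im, Submodule.map_le_iff_le_comap, sp, Submodule.span_le]
    rintro v ⟨j, hj, rfl⟩
    exact h1 j hj

lemma sp_eq_sup {i : ℕ} (hi : i < k) : sp h k = sp h (i + 1) ⊔ Cc k h i := by
  rw [Cc, ← sp_add, show i + 1 + (k - (i + 1)) = k by omega]

lemma Cc_le {i : ℕ} (hi : i < k) : Cc k h i ≤ sp h k := by
  rw [sp_eq_sup hi]
  exact le_sup_right

lemma finrank_Cc {i : ℕ} (hi : i < k) (hk : finrank ℂ ↥(sp h k) = k) :
    finrank ℂ ↥(Cc k h i) = k - (i + 1) ∧ sp h (i + 1) ⊓ Cc k h i = ⊥ := by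
  have h1 := sp_split (h := h) (a := i + 1) (b := k - (i + 1)) (by
    rw [show i + 1 + (k - (i + 1)) = k by omega]
    exact hk)
  exact h1

/-- equality holds in the `i`th condition -/
def Sd (lam : Fin k → ℕ) (F : ℕ → Submodule ℂ (V n)) (H : Submodule ℂ (V n)) (i : Fin k) : Prop :=
  finrank ℂ ↥(H ⊓ F (sidx k n lam i)) = (i : ℕ) + 1

/-- `s` is the least index with equality which is at least `j` -/
def IsNext (lam : Fin k → ℕ) (F : ℕ → Submodule ℂ (V n)) (H : Submodule ℂ (V n)) (j s : Fin k) :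
    Prop := j ≤ s ∧ Sd lam F H s ∧ ∀ i, Sd lam F H i → j ≤ i → s ≤ i

lemma exists_next {j i : Fin k} (hji : j ≤ i) (hi : Sd lam F H i) :
    ∃ s, IsNext lam F H j s := by
  classical
  have h1 : (Finset.univ.filter fun i => j ≤ i ∧ Sd lam F H i).Nonempty :=
    ⟨i, by simp [hji, hi]⟩
  obtain ⟨s, hs, hmin⟩ := Finset.exists_min_image _ id h1
  simp only [Finset.mem_filter, Finset.mem_univ, true_and] at hs hmin
  exact ⟨s, hs.1, hs.2, fun i hi hj => hmin i ⟨hj, hi⟩⟩

lemma sidx_le (hkn : k ≤ n) (i : Fin k) : sidx k n lam i ≤ n := by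
  have := i.2
  rw [sidx]
  omega

lemma sidx_mono (hkn : k ≤ n) (hanti : Antitone lam) {i j : Fin k} (hij : i ≤ j) :
    sidx k n lam i ≤ sidx k n lam j := by
  have h1 := hanti hij
  have h2 : (i : ℕ) ≤ j := hij
  rw [sidx, sidx]
  omega

/-- the conditions `T h_j ∈ F_a + T C` -/
def KK (lam : Fin k → ℕ) (F : ℕ → Submodule ℂ (V n)) (H : Submodule ℂ (V n)) (h : ℕ → V n)
    (T : E n) : Prop :=
  ∀ j s : Fin k, IsNext lam F H j s → T (h j) ∈ F (sidx k n lam s) ⊔ im T (Cc k h s)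

lemma step1 (hkn : k ≤ n) (hanti : Antitone lam) (hF : IsFlag n F) {T : E n}
    (hK : KK lam F H h T) {i : Fin k} (hi : Sd lam F H i) :
    ∀ d : ℕ, ∀ j : Fin k, j ≤ i → (i : ℕ) - j ≤ d →
      T (h j) ∈ F (sidx k n lam i) ⊔ im T (Cc k h i) := by
  intro d
  induction d with
  | zero =>
    intro j hj hd
    have h1 : (j : ℕ) ≤ i := hj
    have h2 : j = i := Fin.ext (by omega)
    subst h2
    exact hK j j ⟨le_rfl, hi, fun i' _ h => h⟩
  | succ d ih =>
    intro j hj hd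
    obtain ⟨s, hs⟩ := exists_next hj hi
    have h1 := hK j s hs
    have hsi : s ≤ i := hs.2.2 i hi hj
    rcases eq_or_lt_of_le hsi with rfl | hlt
    · exact h1
    · refine (sup_le ?_ ?_ : F (sidx k n lam s) ⊔ im T (Cc k h s) ≤ _) h1
      · exact (hF.mono _ _ (sidx_mono hkn hanti hsi) (sidx_le hkn i)).trans le_sup_left
      · rw [Cc_le_iff]
        intro j' hsj hj'
        have hjs : (j : ℕ) ≤ s := hs.1
        by_cases hji : j' ≤ i
        · exact ih ⟨j', hj'⟩ hji (by simp only; omega)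
        · refine Submodule.mem_sup_right ?_
          exact ⟨h j', mem_Cc (by omega) hj', rfl⟩

lemma schub_of_KK (hkn : k ≤ n) (hanti : Antitone lam) (hle : ∀ i, lam i ≤ n - k)
    (hF : IsFlag n F) (hHk : finrank ℂ ↥H = k) (hsp : H = sp h k) {T : E n} (hT : IsUnit T)
    (hK : KK lam F H h T)
    (hcor : ∀ j : Fin k, (∃ s, IsNext lam F H j s ∧ lam s = lam j) ∨ lam j = 0) :
    im T H ∈ schub k n lam F := by
  have hTk : finrank ℂ ↥(im T H) = k := by rw [finrank_im hT, hHk]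
  have hS : ∀ i, Sd lam F H i → (i : ℕ) + 1 ≤ finrank ℂ ↥(im T H ⊓ F (sidx k n lam i)) := by
    intro i hi
    have h1 : im T H ≤ F (sidx k n lam i) ⊔ im T (Cc k h i) := by
      rw [hsp, im_sp_le_iff]
      intro j hj
      by_cases hji : j ≤ i
      · exact step1 hkn hanti hF hK hi _ ⟨j, hj⟩ hji le_rfl
      · refine Submodule.mem_sup_right ?_
        exact ⟨h j, mem_Cc (by omega) hj, rfl⟩
    have h2 : im T H ⊔ F (sidx k n lam i) ≤ F (sidx k n lam i) ⊔ im T (Cc k h i) :=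
      sup_le h1 le_sup_left
    have h3 := Submodule.finrank_mono h2
    have h4 := Submodule.finrank_add_le_finrank_add_finrank (F (sidx k n lam i))
      (im T (Cc k h i))
    have h5 := Submodule.finrank_sup_add_finrank_inf_eq (im T H) (F (sidx k n lam i))
    have h6 : finrank ℂ ↥(im T (Cc k h i)) ≤ k - (i + 1) := by
      rw [finrank_im hT, Cc]
      exact finrank_sp_le _ _
    rw [hF.dim _ (sidx_le hkn i)] at h4 h5
    rw [hTk] at h5
    have := i.2
    omega
  refine ⟨hTk, fun i => ?_⟩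
  rcases hcor i with ⟨s, hs, hls⟩ | h0
  · have h1 := hS s hs.2.1
    have hle' : sidx k n lam i ≤ sidx k n lam s := sidx_mono hkn hanti hs.1
    have h2 := finrank_inf_ge' (im T H ⊓ F (sidx k n lam s)) (F (sidx k n lam i))
      (F (sidx k n lam s)) inf_le_right (hF.mono _ _ hle' (sidx_le hkn s))
    have h3 : finrank ℂ ↥(im T H ⊓ F (sidx k n lam s) ⊓ F (sidx k n lam i)) ≤
        finrank ℂ ↥(im T H ⊓ F (sidx k n lam i)) :=
      Submodule.finrank_mono (inf_le_inf_right _ inf_le_left)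
    rw [hF.dim _ (sidx_le hkn i), hF.dim _ (sidx_le hkn s)] at h2
    have h4 : (i : ℕ) ≤ s := hs.1
    have h5 : sidx k n lam s = sidx k n lam i + (s - i) := by
      have := hle i
      rw [sidx, sidx, hls]
      omega
    have h6 : (i : ℕ) + 1 ≤ finrank ℂ ↥(im T H ⊓ F (sidx k n lam i)) := by omega
    exact h6
  · have h2 := finrank_inf_ge (n := n) (by simp) (im T H) (F (sidx k n lam i))
    rw [hTk, hF.dim _ (sidx_le hkn i)] at h2
    have h5 : sidx k n lam i = n - k + (i + 1) := by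
      rw [sidx, h0]
      omega
    have h6 : (i : ℕ) + 1 ≤ finrank ℂ ↥(im T H ⊓ F (sidx k n lam i)) := by omega
    exact h6

lemma KK_of_schub (hkn : k ≤ n) (hF : IsFlag n F) (hsp : H = sp h k) {T : E n} (hT : IsUnit T)
    (hHk : finrank ℂ ↥H = k) (hs : im T H ∈ schub k n lam F) {j s : Fin k}
    (hjs : IsNext lam F H j s) (hdis : F (sidx k n lam s) ⊓ Cc k h s = ⊥) {ρ : E n}
    (h1 : ∀ x ∈ F (sidx k n lam s), ρ x = 0) (h2 : ∀ x ∈ Cc k h s, ρ x = x)
    (hρ : IsUnit (1 + (T - 1) * ρ)) :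
    T (h j) ∈ F (sidx k n lam s) ⊔ im T (Cc k h s) := by
  have hTk : finrank ℂ ↥(im T H) = k := by rw [finrank_im hT, hHk]
  have e1 : finrank ℂ ↥(F (sidx k n lam s) ⊔ im T (Cc k h s)) =
      sidx k n lam s + (k - (s + 1)) := by
    rw [← im_M h1 h2, finrank_im hρ]
    have h3 := Submodule.finrank_sup_add_finrank_inf_eq (F (sidx k n lam s)) (Cc k h s)
    rw [hdis, finrank_bot, add_zero, hF.dim _ (sidx_le hkn s),
      (finrank_Cc s.2 (by rw [← hsp]; exact hHk)).1] at h3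
    exact h3
  have e2 : F (sidx k n lam s) ⊔ im T (Cc k h s) ≤ F (sidx k n lam s) ⊔ im T H := by
    refine sup_le_sup_left (Submodule.map_mono ?_) _
    rw [hsp]
    exact Cc_le s.2
  have e3 := Submodule.finrank_sup_add_finrank_inf_eq (F (sidx k n lam s)) (im T H)
  rw [hTk, hF.dim _ (sidx_le hkn s), inf_comm] at e3
  have e4 : (s : ℕ) + 1 ≤ finrank ℂ ↥(im T H ⊓ F (sidx k n lam s)) := hs.2 s
  have e5 : F (sidx k n lam s) ⊔ im T (Cc k h s) = F (sidx k n lam s) ⊔ im T H := by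
    apply Submodule.eq_of_le_of_finrank_le e2
    have := s.2
    omega
  rw [e5]
  refine Submodule.mem_sup_right ⟨h j, ?_, rfl⟩
  rw [hsp]
  exact mem_sp h j.2

end main

theorem loc_str {k n : ℕ} (hkn : k ≤ n) {lam : Fin k → ℕ} (hanti : Antitone lam)
    (hle : ∀ i, lam i ≤ n - k) {F : ℕ → Submodule ℂ (V n)} (hF : IsFlag n F)
    {H : Submodule ℂ (V n)} (hH : H ∈ schub k n lam F) :
    ∃ (r : ℕ) (G : E n → (Fin r → ℂ)) (G' : E n →L[ℂ] (Fin r → ℂ)),
      r ≤ ∑ i, lam i ∧ HasStrictFDerivAt G G' 1 ∧ G 1 = 0 ∧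
      (∀ T : E n, G' T = 0 →
        TangentTo k n lam F H (H.mkQ ∘ₗ (T : V n →ₗ[ℂ] V n) ∘ₗ H.subtype)) ∧
      (r = ∑ i, lam i → ∀ᶠ T : E n in 𝓝 1, (im T H ∈ schub k n lam F ↔ G T = 0)) := by
  classical
  have hHk : finrank ℂ ↥H = k := hH.1
  obtain ⟨h, hh⟩ := exists_adapted hF H
  have hFn : F n = ⊤ := by
    apply Submodule.eq_top_of_finrank_eq
    rw [hF.dim n le_rfl]
    simp
  have hsp : H = sp h k := by
    have h1 := hh n le_rfl
    rw [hFn, inf_top_eq, hHk] at h1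
    exact h1
  have hspk : finrank ℂ ↥(sp h k) = k := by rw [← hsp]; exact hHk
  have hSd : ∀ i, Sd lam F H i → H ⊓ F (sidx k n lam i) = sp h (i + 1) := by
    intro i hi
    have h1 := hh _ (sidx_le (lam := lam) hkn i)
    rw [hi] at h1
    exact h1
  have hdis : ∀ i, Sd lam F H i → F (sidx k n lam i) ⊓ Cc k h i = ⊥ := by
    intro i hi
    have h1 := (finrank_Cc i.2 hspk).2
    rw [← hSd i hi] at h1
    rw [eq_bot_iff, ← h1]
    refine le_inf (le_inf ?_ inf_le_left) inf_le_right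
    rw [hsp]
    exact inf_le_right.trans (Cc_le i.2)
  have hdata : ∀ j : Fin k, ∃ (q : ℕ) (δ : V n →L[ℂ] (Fin q → ℂ)) (ρ : E n),
      q ≤ lam j ∧ ρ (h j) = 0 ∧ δ (h j) = 0 ∧
      ((∃ s, IsNext lam F H j s ∧ q = lam s ∧
        (∀ x, δ x = 0 ↔ x ∈ F (sidx k n lam s) ⊔ Cc k h s) ∧
        (∀ x ∈ F (sidx k n lam s), ρ x = 0) ∧ (∀ x ∈ Cc k h s, ρ x = x)) ∨
        (q = 0 ∧ ∀ s, ¬ IsNext lam F H j s)) := by
    intro j
    by_cases hj : ∃ s, IsNext lam F H j s
    · obtain ⟨s, hs⟩ := hj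
      have h1 := hdis s hs.2.1
      have h2 : finrank ℂ ↥(F (sidx k n lam s) ⊔ Cc k h s) + lam s = n := by
        have h3 := Submodule.finrank_sup_add_finrank_inf_eq (F (sidx k n lam s)) (Cc k h s)
        rw [h1, finrank_bot, add_zero, hF.dim _ (sidx_le hkn s), (finrank_Cc s.2 hspk).1] at h3
        have h4 := s.2
        have h5 := hle s
        rw [h3, sidx]
        omega
      obtain ⟨δ, ρ, hδ, hρ, hρ'⟩ := exists_data h1 h2
      have h6 : h j ∈ F (sidx k n lam s) := by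
        have h7 : h j ∈ sp h (s + 1) := mem_sp h (by have : (j : ℕ) ≤ s := hs.1; omega)
        rw [← hSd s hs.2.1] at h7
        exact h7.2
      refine ⟨lam s, δ, ρ, hanti hs.1, hρ _ h6, (hδ _).2 (Submodule.mem_sup_left h6),
        Or.inl ⟨s, hs, rfl, hδ, hρ, hρ'⟩⟩
    · push Not at hj
      exact ⟨0, 0, 0, Nat.zero_le _, by simp, by simp, Or.inr ⟨rfl, hj⟩⟩
  choose q δ ρ hq hρ0 hδ0 hD using hdata
  have hfr : finrank ℂ ((j : Fin k) → Fin (q j) → ℂ) = finrank ℂ (Fin (∑ j, q j) → ℂ) := by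
    rw [Module.finrank_pi_fintype, Module.finrank_fin_fun]
    exact Finset.sum_congr rfl fun j _ => Module.finrank_fin_fun _
  let e : ((j : Fin k) → Fin (q j) → ℂ) ≃L[ℂ] (Fin (∑ j, q j) → ℂ) :=
    ContinuousLinearEquiv.ofFinrankEq hfr
  refine ⟨∑ j, q j, fun T => e (fun j => GG (δ j) (ρ j) (h j) T),
    (e : ((j : Fin k) → Fin (q j) → ℂ) →L[ℂ] (Fin (∑ j, q j) → ℂ)).comp
      (ContinuousLinearMap.pi fun j => (δ j).comp (ContinuousLinearMap.apply ℂ (V n) (h j))),
    Finset.sum_le_sum fun j _ => hq j, ?_, ?_, ?_, ?_⟩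
  · exact (e : ((j : Fin k) → Fin (q j) → ℂ) →L[ℂ] (Fin (∑ j, q j) → ℂ)).hasStrictFDerivAt.comp
      (1 : E n) (hasStrictFDerivAt_pi.2 fun j => GG_deriv (δ j) (hρ0 j))
  · have h1 : (fun j => GG (δ j) (ρ j) (h j) 1) = 0 := by
      funext j
      rw [GG_one, hδ0]
      rfl
    simp only [h1, map_zero]
  · intro T hT i hi x hx
    have hTj : ∀ j : Fin k, δ j (T (h j)) = 0 := by
      have h1 : (fun j => δ j (T (h j))) = 0 := by
        apply e.injective
        rw [map_zero]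
        exact hT
      intro j
      exact congrFun h1 j
    have h2 : im T (sp h (i + 1)) ≤ F (sidx k n lam i) ⊔ H := by
      rw [im_sp_le_iff]
      intro j hj
      have hjk : j < k := by have := i.2; omega
      obtain ⟨s, hs⟩ := exists_next (lam := lam) (F := F) (H := H) (j := ⟨j, hjk⟩)
        (show (⟨j, hjk⟩ : Fin k) ≤ i from Nat.lt_succ_iff.1 hj) hi
      rcases hD ⟨j, hjk⟩ with ⟨s', hs', -, hδ, -, -⟩ | ⟨-, hno⟩
      · have h3 := (hδ _).1 (hTj ⟨j, hjk⟩)
        have h4 : s' ≤ i := hs'.2.2 i hi (Nat.lt_succ_iff.1 hj)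
        refine (sup_le_sup (hF.mono _ _ (sidx_mono hkn hanti h4) (sidx_le hkn i)) ?_) h3
        exact (Cc_le s'.2).trans hsp.ge
      · exact absurd hs (hno s)
    have h3 : (x : V n) ∈ sp h (i + 1) := by
      rw [← hSd i hi]
      exact ⟨x.2, hx⟩
    have h4 : T (x : V n) ∈ F (sidx k n lam i) ⊔ H := h2 ⟨x, h3, rfl⟩
    obtain ⟨y, hy, z, hz, hyz⟩ := Submodule.mem_sup.1 h4
    refine ⟨y, hy, ?_⟩
    change H.mkQ y = H.mkQ (T x)
    rw [← hyz, map_add]
    have h5 : H.mkQ z = 0 := by simpa [Submodule.Quotient.mk_eq_zero] using hz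
    rw [h5, add_zero]
  · intro hr
    have hqe : ∀ j, q j = lam j := by
      have h1 := (Finset.sum_eq_sum_iff_of_le fun j _ => hq j).1 hr
      intro j
      exact h1 j (Finset.mem_univ j)
    have hev : ∀ᶠ T : E n in 𝓝 1, ∀ j, IsUnit (1 + (T - 1) * ρ j) :=
      eventually_all.2 fun j => ev_unit (ρ j)
    filter_upwards [hev, ev_unit'] with T hM hTu
    have hG : e (fun j => GG (δ j) (ρ j) (h j) T) = 0 ↔ ∀ j, GG (δ j) (ρ j) (h j) T = 0 := by
      constructor
      · intro h1 j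
        have h2 : (fun j => GG (δ j) (ρ j) (h j) T) = 0 := by
          apply e.injective
          rw [map_zero]
          exact h1
        exact congrFun h2 j
      · intro h1
        have h2 : (fun j => GG (δ j) (ρ j) (h j) T) = 0 := funext h1
        rw [h2, map_zero]
    rw [hG]
    constructor
    · intro hs j
      rcases hD j with ⟨s, hs', hqs, hδ, hρ, hρ'⟩ | ⟨h0, -⟩
      · rw [GG, hδ, inverse_mem (hM j), im_M hρ hρ']
        exact KK_of_schub hkn hF hsp hTu hHk hs hs' (hdis s hs'.2.1) hρ hρ' (hM j)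
      · funext x
        exact absurd x.2 (by omega)
    · intro h1
      refine schub_of_KK hkn hanti hle hF hHk hsp hTu ?_ ?_
      · intro j s hs
        rcases hD j with ⟨s', hs', hqs, hδ, hρ, hρ'⟩ | ⟨h0, hno⟩
        · have h2 := h1 j
          rw [GG, hδ, inverse_mem (hM j), im_M hρ hρ'] at h2
          have h3 : s = s' := le_antisymm (hs.2.2 _ hs'.2.1 hs'.1) (hs'.2.2 _ hs.2.1 hs.1)
          rw [h3]
          exact h2
        · exact absurd hs (hno s)
      · intro j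
        rcases hD j with ⟨s', hs', hqs, -, -, -⟩ | ⟨h0, hno⟩
        · exact Or.inl ⟨s', hs', by rw [← hqs, hqe]⟩
        · exact Or.inr (by rw [← hqe, h0])

end Pool.CTG
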